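import Pool.Agent.Helper61.XE.Sys
import Pool.Agent.Helper78.DF.Norm

/-!
# A bound for the eigenvalues which does not depend on the level
-/

set_option autoImplicit false

open scoped ENNReal ComplexConjugate

noncomputable section

namespace Pool.Agent.Helper61.XE

open Pool.Agent.Helper78.DF

variable {G : Type} [Group G] {K : Subgroup G}

theorem rowcol {φ : G → ℝ} (hφ : IsHecke K φ) : ∃ N : ℝ≥0∞, N ≠ ⊤ ∧
    (∀ x, ∑' y, ke (hker K φ) x y ≤ N) ∧ ∀ y, ∑' x, ke (hker K φ) x y ≤ N := by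
  classical
  set κ := hker K φ with hκ
  set R : ℝ≥0∞ := ∑' y, ke κ (QuotientGroup.mk 1) y with hR
  set C : ℝ≥0∞ := ∑' x, ke κ x (QuotientGroup.mk 1) with hC
  have hrow : ∀ x, ∑' y, ke κ x y = R := by
    intro x
    rw [hR, ← (MulAction.toPerm (x.out : G) : Equiv.Perm (G ⧸ K)).tsum_eq (fun y => ke κ x y)]
    refine tsum_congr fun y => ?_
    show ke κ x (x.out • y) = _
    unfold ke
    congr 1
    rw [hκ, ← hker_inv hφ x.out (QuotientGroup.mk 1) y]
    congr 1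
    have : x.out • (QuotientGroup.mk 1 : G ⧸ K) = QuotientGroup.mk (x.out * 1) := rfl
    rw [this, mul_one, mk_out']
  have hcol : ∀ y, ∑' x, ke κ x y = C := by
    intro y
    rw [hC, ← (MulAction.toPerm (y.out : G) : Equiv.Perm (G ⧸ K)).tsum_eq (fun x => ke κ x y)]
    refine tsum_congr fun x => ?_
    show ke κ (y.out • x) y = _
    unfold ke
    congr 1
    rw [hκ, ← hker_inv hφ y.out x (QuotientGroup.mk 1)]
    congr 1
    have : y.out • (QuotientGroup.mk 1 : G ⧸ K) = QuotientGroup.mk (y.out * 1) := rfl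
    rw [this, mul_one, mk_out']
  have hRt : R ≠ ⊤ := by
    rw [hR, tsum_eq_sum (s := (hker_row hφ (QuotientGroup.mk 1)).toFinset)]
    · exact ENNReal.sum_ne_top.2 fun y _ => ENNReal.ofReal_ne_top
    · intro y hy
      have : κ (QuotientGroup.mk 1) y = 0 := by simpa using hy
      unfold ke
      rw [this]
      simp
  have hCt : C ≠ ⊤ := by
    rw [hC, tsum_eq_sum (s := (hker_col hφ (QuotientGroup.mk 1)).toFinset)]
    · exact ENNReal.sum_ne_top.2 fun y _ => ENNReal.ofReal_ne_top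
    · intro y hy
      have : κ y (QuotientGroup.mk 1) = 0 := by simpa using hy
      unfold ke
      rw [this]
      simp
  refine ⟨R + C, ENNReal.add_ne_top.2 ⟨hRt, hCt⟩, fun x => ?_, fun y => ?_⟩
  · rw [hrow]
    exact le_self_add
  · rw [hcol]
    exact le_add_self

/-- the eigenvalues are bounded -/
theorem eig_bd {φ : G → ℝ} (hφ : IsHecke K φ) : ∃ D : ℝ, 0 ≤ D ∧ ∀ (Γ : Subgroup G),
    (∀ x : G ⧸ K, Finite (MulAction.stabilizer Γ x)) → ∀ (F : G ⧸ K → ℂ),
    (∀ γ ∈ Γ, ∀ x, F (γ • x) = F x) → Sq Γ F → ip Γ F F = 1 → ∀ l : ℂ,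
    (∀ x, hecke K φ F x = l * F x) → ‖l‖ ≤ D := by
  obtain ⟨N, hN, hrow, hcol⟩ := rowcol hφ
  refine ⟨N.toReal, ENNReal.toReal_nonneg, fun Γ hfin F hinv hsq hone l hl => ?_⟩
  set κ := hker K φ with hκ
  have h1 := schur Γ hfin (fun x y => ke κ y x) (fun γ x y => by
      show ENNReal.ofReal (κ ((γ : G) • y) ((γ : G) • x)) = ENNReal.ofReal (κ y x)
      rw [hκ, hker_inv hφ]) (fun _ => 1) (fun _ => one_ne_zero) (fun _ => ENNReal.one_ne_top)
      (fun _ _ => rfl) N (fun x => by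
        simp only [mul_one]
        exact hcol x) (fun y => by
        simp only [mul_one]
        exact hrow y) (fun x => ‖F x‖ₑ) (fun γ x => by
        show ‖F ((γ : G) • x)‖ₑ = ‖F x‖ₑ
        rw [hinv γ γ.2])
  have h2 : ∑' x, cut Γ x * ‖F x‖ₑ ^ 2 = 1 := by
    rw [nsq_enn Γ hfin F hsq]
    have : nsq Γ F = 1 := by
      rw [nsq_ip] at hone
      exact_mod_cast hone
    rw [this, ENNReal.ofReal_one]
  rw [h2, mul_one] at h1
  have h3 : ‖l‖ₑ ^ 2 ≤ N ^ 2 := by
    refine le_trans ?_ h1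
    calc ‖l‖ₑ ^ 2 = ‖l‖ₑ ^ 2 * ∑' x, cut Γ x * ‖F x‖ₑ ^ 2 := by rw [h2, mul_one]
      _ = ∑' x, cut Γ x * (‖l‖ₑ * ‖F x‖ₑ) ^ 2 := by
          rw [← ENNReal.tsum_mul_left]
          refine tsum_congr fun x => ?_
          ring
      _ ≤ _ := by
          refine ENNReal.tsum_le_tsum fun x => mul_le_mul' le_rfl (pow_le_pow_left' ?_ 2)
          rw [← enorm_mul, ← hl x]
          exact op_enorm (isKer_hker hφ) F x
  have h4 : ‖l‖ₑ ≤ N := (ENNReal.pow_le_pow_left_iff two_ne_zero).1 h3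
  have h5 : ‖l‖ₑ.toReal ≤ N.toReal := ENNReal.toReal_mono hN h4
  simpa using h5

end Pool.Agent.Helper61.XE
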