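import Pool.Agent.Helper78.DF.Defs

/-!
# The definitions used by the equidistribution theorem

They are added to those of `Pool.Agent.Helper78.DF.Defs`. `G` is a group with a homomorphism `ρ` to
the product of the groups `GL_n(k_v)`, `v ∈ ι`, and `K` is a subgroup of `G`.
-/

set_option autoImplicit false

noncomputable section

namespace Pool.Agent.Helper61.XE

open Pool.Agent.Helper78.DF

variable {G : Type} [Group G] {ι : Type} {k : ι → Type} [∀ v, NormedField (k v)] {n : ℕ}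

/-- The product of the Hecke operators attached to the functions `φ_j`, for `j` in the list `L`,
applied to `f`. -/
def heckes {J : Type} (K : Subgroup G) (φ : J → G → ℝ) (L : List J) (f : G ⧸ K → ℂ) : G ⧸ K → ℂ :=
  L.foldr (fun j F => hecke K (φ j) F) f

/-- Either `V = 1` and `a = 1`, or `V` is the group of all upper triangular matrices with ones on
the diagonal and `a` is dominant. -/
def Kind [Fintype ι] (V : Set (GLS n k)) (a : GLS n k) : Prop :=
  (V = {1} ∧ a = 1) ∨ (V = {u | Upper u} ∧ Dominant a)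

/-- `f` is a nonzero function on `G / K`, invariant under `Δ₀`, with finite support modulo `Δ₀`,
which vanishes outside the set of the points `g K` with `ρ(g) = c u a b`, where `u ∈ V` and the
entries of `b`, `b⁻¹` are bounded by `h`, `h'`. -/
structure IsPer (ρ : G →* GLS n k) (K Δ₀ : Subgroup G) (V : Set (GLS n k)) (c a : GLS n k)
    (h h' : ι → ℝ) (f : G ⧸ K → ℂ) : Prop where
  ne : f ≠ 0
  inv : ∀ γ ∈ Δ₀, ∀ x, f (γ • x) = f x
  fin : {o : Orb Δ₀ (G ⧸ K) | f (Quotient.out o) ≠ 0}.Finite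
  supp : ∀ x, f x ≠ 0 → ∃ g : G, (QuotientGroup.mk g : G ⧸ K) = x ∧ ∃ u ∈ V, ∃ b : GLS n k,
    Bdd b h ∧ Bdd b⁻¹ h' ∧ ρ g = c * u * a * b

/-- `F_i`, `i ∈ I`, is a complete system of eigenfunctions of level `𝔫` for `f`. With
`Γ = prin ρ emb 𝔫` and `Δ = Γ ∩ Δ₀`: the `F_i` are orthonormal in `L²(Γ \ G / K)`, they are
eigenfunctions of the Hecke operators attached to `φ_j`, `j ∈ J`, with the eigenvalues `lam i j`,
and every function in `L²(Γ \ G / K)` which is orthogonal to all `F_i` is orthogonal to `f` on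
`Δ \ G / K`. -/
structure IsSys {A : Type} [CommRing A] (ρ : G →* GLS n k) (emb : ∀ v, A →+* k v)
    (K Δ₀ : Subgroup G) {J : Type} (φ : J → G → ℝ) (f : G ⧸ K → ℂ) (𝔫 : Ideal A) {I : Type}
    (F : I → G ⧸ K → ℂ) (lam : I → J → ℂ) : Prop where
  onf : IsONF (prin ρ emb 𝔫) F
  eig : ∀ i j x, hecke K (φ j) (F i) x = lam i j * F i x
  complete : ∀ Φ : G ⧸ K → ℂ, (∀ γ ∈ prin ρ emb 𝔫, ∀ x, Φ (γ • x) = Φ x) →
    (Summable fun o : Orb (prin ρ emb 𝔫) (G ⧸ K) =>
      ‖Φ (Quotient.out o)‖ ^ 2 / (sc (prin ρ emb 𝔫) (Quotient.out o) : ℝ)) →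
    (∀ i, ip (prin ρ emb 𝔫) Φ (F i) = 0) → ip (prin ρ emb 𝔫 ⊓ Δ₀) Φ f = 0

end Pool.Agent.Helper61.XE
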