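import Pool.Agent.Helper61.XE.Meas

/-!
# The support of the limit measure
-/

set_option autoImplicit false

open scoped ENNReal ComplexConjugate Topology
open MeasureTheory Filter

noncomputable section

namespace Pool.Agent.Helper61.XE

variable {J : Type} [Fintype J] {D : J → ℝ}

omit [Fintype J] in
theorem mon_rep (m : ℕ) (j : J) (z : J → ℂ) :
    mon (List.replicate m j) (List.replicate m j) z = ((‖z j‖ ^ (2 * m) : ℝ) : ℂ) := by
  unfold mon
  rw [List.map_replicate, List.prod_replicate, map_pow, ← mul_pow, Complex.mul_conj', pow_mul]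
  push_cast
  rfl

/-- bounds for the even moments bound the support -/
theorem supp_one {μ : Measure (Box D)} [IsProbabilityMeasure μ] (j : J) {s : ℝ} (hs : 0 ≤ s)
    (h : ∀ m : ℕ, ∫ z, ‖z.1 j‖ ^ (2 * m) ∂μ ≤ s ^ (2 * m)) : ∀ᵐ z ∂μ, ‖z.1 j‖ ≤ s := by
  have hc : Continuous fun z : Box D => ‖z.1 j‖ :=
    continuous_norm.comp ((continuous_apply j).comp continuous_subtype_val)
  have hint : ∀ m : ℕ, Integrable (fun z : Box D => ‖z.1 j‖ ^ (2 * m)) μ := by
    intro m
    refine Integrable.of_bound (hc.pow (2 * m)).aestronglyMeasurable (D j ^ (2 * m)) ?_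
    refine Filter.Eventually.of_forall fun z => ?_
    rw [norm_pow, norm_norm]
    exact pow_le_pow_left₀ (norm_nonneg _) (z.2 j) _
  have h1 : ∀ c : ℝ, s < c → μ {z : Box D | c ≤ ‖z.1 j‖} = 0 := by
    intro c hc'
    have hcpos : 0 < c := lt_of_le_of_lt hs hc'
    have h2 : ∀ m : ℕ, μ.real {z : Box D | c ≤ ‖z.1 j‖} ≤ ((s / c) ^ 2) ^ m := by
      intro m
      have h3 := mul_meas_ge_le_integral_of_nonneg (μ := μ)
        (f := fun z : Box D => ‖z.1 j‖ ^ (2 * m))
        (Filter.Eventually.of_forall fun z => by positivity) (hint m) (c ^ (2 * m))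
      have h4 : μ.real {z : Box D | c ≤ ‖z.1 j‖} ≤
          μ.real {z : Box D | c ^ (2 * m) ≤ ‖z.1 j‖ ^ (2 * m)} := by
        refine measureReal_mono ?_
        intro z hz
        exact pow_le_pow_left₀ hcpos.le hz _
      rw [← pow_mul, div_pow, le_div_iff₀ (by positivity), mul_comm]
      exact (mul_le_mul_of_nonneg_left h4 (by positivity)).trans (h3.trans (h m))
    have h5 : Tendsto (fun m : ℕ => ((s / c) ^ 2) ^ m) atTop (𝓝 0) := by
      refine tendsto_pow_atTop_nhds_zero_of_lt_one (by positivity) ?_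
      have h6 : s / c < 1 := (div_lt_one hcpos).2 hc'
      have h7 : 0 ≤ s / c := by positivity
      nlinarith
    have h8 : μ.real {z : Box D | c ≤ ‖z.1 j‖} ≤ 0 :=
      ge_of_tendsto' h5 h2
    have h9 : μ.real {z : Box D | c ≤ ‖z.1 j‖} = 0 := le_antisymm h8 measureReal_nonneg
    rwa [measureReal_eq_zero_iff] at h9
  have h2 : ∀ k : ℕ, ∀ᵐ z ∂μ, ‖z.1 j‖ < s + 1 / ((k : ℝ) + 1) := by
    intro k
    rw [ae_iff]
    have h3 := h1 (s + 1 / ((k : ℝ) + 1)) (by
      have : (0 : ℝ) < 1 / ((k : ℝ) + 1) := by positivity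
      linarith)
    simpa using h3
  filter_upwards [ae_all_iff.2 h2] with z hz
  refine le_of_forall_pos_le_add fun ε hε => ?_
  obtain ⟨k, hk⟩ := exists_nat_one_div_lt hε
  have := hz k
  linarith

end Pool.Agent.Helper61.XE
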