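import Pool.Agent.Helper61.XE.Sep
import Pool.Agent.Helper61.XE.Bound
import Pool.Agent.Helper61.XE.Supp

/-!
# The equidistribution theorem
-/

set_option autoImplicit false

open scoped ENNReal ComplexConjugate Topology
open MeasureTheory Filter

noncomputable section

namespace Pool.Agent.Helper61.XE

open Pool.Agent.Helper78.DF

section level
variable {G : Type} [Group G] {A : Type} [CommRing A] {ι : Type} [Fintype ι] {k : ι → Type}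
    [∀ v, NormedField (k v)] [∀ v, IsUltrametricDist (k v)] {emb : ∀ v, A →+* k v}
    {n : ℕ} {ρ : G →* GLS n k} {K : Subgroup G} {J : Type} {φ : J → G → ℝ}
    {Q Q' : J → ι → ℝ} {h h' : ι → ℝ} {c a : GLS n k} {V : Set (GLS n k)}
    {Δ₀ : Subgroup G} {f : G ⧸ K → ℂ}

/-- finite support modulo `Δ₀` gives finite support modulo `Δ` -/
theorem fin_level {X : Type} [MulAction G X] {Δ Δ₀ : Subgroup G} (hle : Δ ≤ Δ₀)
    (hidx : Δ.relIndex Δ₀ ≠ 0) {g : X → ℂ} (hinv : ∀ γ ∈ Δ₀, ∀ x, g (γ • x) = g x)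
    (hg : {o : Orb Δ₀ X | g (Quotient.out o) ≠ 0}.Finite) :
    {o : Orb Δ X | g (Quotient.out o) ≠ 0}.Finite := by
  classical
  obtain ⟨O, _, hO, _⟩ := orbits_le' hle hidx (hg.toFinset.image Quotient.out)
  refine O.finite_toSet.subset ?_
  intro o ho
  refine hO o ?_
  have hrel : (MulAction.orbitRel Δ₀ X).r
      (Quotient.out (Quotient.mk (MulAction.orbitRel Δ₀ X) (Quotient.out o))) (Quotient.out o) :=
    Quotient.mk_out (s := MulAction.orbitRel Δ₀ X) (Quotient.out o)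
  obtain ⟨γ, hγ⟩ : ∃ γ : Δ₀, γ • (Quotient.out o) =
      Quotient.out (Quotient.mk (MulAction.orbitRel Δ₀ X) (Quotient.out o)) := hrel
  refine ⟨γ, γ.2, ?_⟩
  have h1 : (γ : G) • (Quotient.out o) =
      Quotient.out (Quotient.mk (MulAction.orbitRel Δ₀ X) (Quotient.out o)) := hγ
  rw [h1, Finset.mem_image]
  refine ⟨_, ?_, rfl⟩
  rw [Set.Finite.mem_toFinset]
  show g _ ≠ 0
  rw [← h1, hinv γ γ.2]
  exact ho

/-- the subgroup `Δ` is locally finite -/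
theorem locFin_kind (hρ : Function.Injective ρ) {Γ Δ : Subgroup G} (hΓ : Disc ρ Γ)
    (hV : Kind V a) (hΔ : ∀ γ, γ ∈ Δ ↔ γ ∈ Γ ∧ c⁻¹ * ρ γ * c ∈ V) : LocFin Δ := by
  rcases hV with ⟨hV, _⟩ | ⟨hV, _⟩
  · have hbot : Δ = ⊥ := by
      refine (Subgroup.eq_bot_iff_forall Δ).2 fun γ hγ => ?_
      have h1 := ((hΔ γ).1 hγ).2
      rw [hV, Set.mem_singleton_iff] at h1
      have h2 : ρ γ = 1 := by
        calc ρ γ = c * (c⁻¹ * ρ γ * c) * c⁻¹ := by group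
          _ = 1 := by rw [h1]; group
      exact hρ (h2.trans (map_one ρ).symm)
    intro s _ hs
    refine ⟨⊥, bot_le, inferInstance, ?_⟩
    rw [hbot] at hs
    exact hs
  · have he : Δ = unip ρ Γ c := by
      refine Subgroup.ext fun γ => ?_
      rw [hΔ, hV]
      rfl
    rw [he]
    exact locFin_unip hΓ c

variable (hA : IsSInt emb) (hρ : Function.Injective ρ) (hK : ∀ κ ∈ K, Bdd (ρ κ) fun _ => 1)
  (hφ : ∀ j, IsHecke K (φ j)) (hQ : ∀ j, SizeBd ρ (φ j) (Q j) (Q' j))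
  (hQ1 : ∀ j v, 1 ≤ Q j v ∧ 1 ≤ Q' j v) (hV : Kind V a) {d : A} (hc : HasDen emb c d)
  (hh : ∀ v, 0 < h v ∧ 0 < h' v ∧ 1 ≤ h v * h' v)
  (hΔ₀ : ∀ γ, γ ∈ Δ₀ ↔ γ ∈ prin ρ emb ⊤ ∧ c⁻¹ * ρ γ * c ∈ V)
  (hf : IsPer ρ K Δ₀ V c a h h' f)

include hΔ₀ in
omit [Fintype ι] [∀ v, IsUltrametricDist (k v)] in
theorem mem_level (𝔫 : Ideal A) (γ : G) :
    γ ∈ prin ρ emb 𝔫 ⊓ Δ₀ ↔ γ ∈ prin ρ emb 𝔫 ∧ c⁻¹ * ρ γ * c ∈ V := by
  rw [Subgroup.mem_inf, hΔ₀]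
  constructor
  · rintro ⟨h1, _, h2⟩
    exact ⟨h1, h2⟩
  · rintro ⟨h1, h2⟩
    exact ⟨h1, prin_mono ρ emb 𝔫 h1, h2⟩

include hΔ₀ in
omit [Fintype ι] [∀ v, IsUltrametricDist (k v)] in
theorem idx_level (𝔫 : Ideal A) [Finite (A ⧸ 𝔫)] : (prin ρ emb 𝔫 ⊓ Δ₀).relIndex Δ₀ ≠ 0 := by
  rw [Subgroup.inf_relIndex_right]
  intro h0
  refine prin_index ρ emb 𝔫 ?_
  refine Subgroup.relIndex_eq_zero_of_le_right ?_ h0
  intro γ hγ
  exact ((hΔ₀ γ).1 hγ).1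

omit [Fintype ι] [∀ v, IsUltrametricDist (k v)] in
theorem prin_le (𝔫 : Ideal A) : prin ρ emb 𝔫 ⊓ Δ₀ ≤ prin ρ emb ⊤ :=
  inf_le_left.trans (prin_mono ρ emb 𝔫)

include hA hρ hK in
theorem stab_level {Γ : Subgroup G} (hΓ : Γ ≤ prin ρ emb ⊤) (x : G ⧸ K) :
    Finite (MulAction.stabilizer Γ x) :=
  stab_fin (disc_prin hρ hA hΓ) hK x

include hΔ₀ in
omit [Fintype ι] [∀ v, IsUltrametricDist (k v)] in
theorem le_top : Δ₀ ≤ prin ρ emb ⊤ := fun γ hγ => ((hΔ₀ γ).1 hγ).1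

include hΔ₀ hf in
omit [∀ v, IsUltrametricDist (k v)] in
/-- `f` has finite support modulo `Δ` -/
theorem fin_lev (𝔫 : Ideal A) [Finite (A ⧸ 𝔫)] :
    {o : Orb (prin ρ emb 𝔫 ⊓ Δ₀ : Subgroup G) (G ⧸ K) | f (Quotient.out o) ≠ 0}.Finite :=
  fin_level inf_le_right (idx_level hΔ₀ 𝔫) hf.inv hf.fin

include hA hρ hK hφ hQ hQ1 hV hc hh hΔ₀ hf in
/-- the exact formula -/
theorem level_exact {𝔫 : Ideal A} {I : Type} [Fintype I] {F : I → G ⧸ K → ℂ} {lam : I → J → ℂ}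
    (hs : IsSys ρ emb K Δ₀ φ f 𝔫 F lam) (L L' : List J)
    (hr : (∏ v, (h v * h' v)) * Nat.card (A ⧸ Ideal.span {d}) *
      ((L.map fun j => ∏ v, Q j v).prod * (L'.map fun j => ∏ v, Q' j v).prod) <
        Nat.card (A ⧸ 𝔫)) :
    ∑ i, (L.map (lam i)).prod * conj (L'.map (lam i)).prod *
      ((‖ip (prin ρ emb 𝔫 ⊓ Δ₀) (F i) f‖ ^ 2 : ℝ) : ℂ) =
      ip (prin ρ emb 𝔫 ⊓ Δ₀) (heckes K φ L f) (heckes K φ L' f) := by
  obtain ⟨hdf, hdp⟩ := hA.prod d hc.1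
  have hdpos : (0 : ℝ) < Nat.card (A ⧸ Ideal.span {d}) := by
    exact_mod_cast Nat.card_pos
  have hpos : (0 : ℝ) ≤ (∏ v, (h v * h' v)) * Nat.card (A ⧸ Ideal.span {d}) *
      ((L.map fun j => ∏ v, Q j v).prod * (L'.map fun j => ∏ v, Q' j v).prod) := by
    have h1 : ∀ M : List J, ∀ R : J → ι → ℝ, (∀ j v, 1 ≤ R j v) →
        0 ≤ (M.map fun j => ∏ v, R j v).prod := fun M R hR =>
      (list_prod_pos M _ fun j => Finset.prod_pos fun v _ =>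
        lt_of_lt_of_le zero_lt_one (hR j v)).le
    refine mul_nonneg (mul_nonneg ?_ hdpos.le) (mul_nonneg (h1 L Q fun j v => (hQ1 j v).1)
      (h1 L' Q' fun j v => (hQ1 j v).2))
    exact Finset.prod_nonneg fun v _ => mul_nonneg (hh v).1.le (hh v).2.1.le
  have h𝔫 : Finite (A ⧸ 𝔫) := by
    refine Nat.finite_of_card_ne_zero ?_
    intro h0
    rw [h0, Nat.cast_zero] at hr
    exact absurd hr (not_lt.2 hpos)
  have hT : (∏ v, (h v * h' v)) * ((L.map fun j => ∏ v, Q j v).prod *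
      (L'.map fun j => ∏ v, Q' j v).prod) <
      (Nat.card (A ⧸ 𝔫) : ℝ) / Nat.card (A ⧸ Ideal.span {d}) := by
    rw [lt_div_iff₀ hdpos]
    refine lt_of_eq_of_lt ?_ hr
    ring
  rw [heckes_ops, heckes_ops]
  refine sys_exact (Γ := prin ρ emb 𝔫) (Δ := prin ρ emb 𝔫 ⊓ Δ₀)
    (stab_level hA hρ hK (prin_mono ρ emb 𝔫)) (stab_level hA hρ hK (prin_le 𝔫)) inf_le_left
    (κ := fun j => hker K (φ j)) (fun j => kerOK (hφ j) _) hs.onf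
    (fun i j => funext fun x => hs.eig i j x) (fun γ hγ => hf.inv γ hγ.2) (fin_lev hΔ₀ hf 𝔫)
    hs.complete L L' ?_
  refine sep_ops hK hφ hQ hQ1 L L' (frame_of_den hA le_rfl hc) hV (mem_level hΔ₀ 𝔫) hh hT _ ?_
  intro x hx
  exact hf.supp x (cutf_ne _ hx).1

include hA hρ hK hφ hΔ₀ hf in
/-- independence of the level -/
theorem level_ratio (𝔫 : Ideal A) [Finite (A ⧸ 𝔫)] (L L' : List J) :
    ip (prin ρ emb 𝔫 ⊓ Δ₀) (heckes K φ L f) (heckes K φ L' f) =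
      ((prin ρ emb 𝔫 ⊓ Δ₀).relIndex Δ₀ : ℂ) * ip Δ₀ (heckes K φ L f) (heckes K φ L' f) := by
  have hst := stab_level hA hρ hK (le_top hΔ₀)
  have hKL : ∀ M : List J, ∀ κ' ∈ M.map (fun j => hker K (φ j)), KerOK Δ₀ κ' := by
    intro M κ' h
    obtain ⟨j, _, rfl⟩ := List.mem_map.1 h
    exact kerOK (hφ j) _
  rw [heckes_ops, heckes_ops]
  refine ip_idx _ _ inf_le_right (idx_level hΔ₀ 𝔫) hst
    (stab_level hA hρ hK (prin_le 𝔫)) (ops_inv _ (hKL L) hf.inv) (ops_inv _ (hKL L') hf.inv) ?_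
  have h1 : f = tr Δ₀ (cutf Δ₀ f) := (tr_cutf Δ₀ hst hf.inv hf.fin).symm
  rw [h1, ops_tr hst _ (hKL L') (cutf_fin Δ₀ hf.fin)]
  exact tr_orb hst (ops_fin _ (hKL L') (cutf_fin Δ₀ hf.fin))

include hA hρ hK hφ hΔ₀ hf in
theorem level_nsq (𝔫 : Ideal A) [Finite (A ⧸ 𝔫)] :
    nsq (prin ρ emb 𝔫 ⊓ Δ₀) f = ((prin ρ emb 𝔫 ⊓ Δ₀).relIndex Δ₀ : ℝ) * nsq Δ₀ f := by
  have h1 := level_ratio hA hρ hK hφ hΔ₀ hf 𝔫 [] []
  have h2 : heckes K φ [] f = f := rfl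
  rw [h2, nsq_ip, nsq_ip] at h1
  exact_mod_cast h1

include hA hρ hK hΔ₀ hf in
theorem nsq_pos : 0 < nsq Δ₀ f := by
  refine lt_of_le_of_ne (nsq_nonneg Δ₀ f) fun h0 => hf.ne ?_
  exact nsq_zero (stab_level hA hρ hK (le_top hΔ₀)) (Sq.of_fin hf.fin) hf.inv h0.symm

include hA hρ hK hφ hQ hQ1 hV hc hh hΔ₀ hf in
/-- the bound by the norms -/
theorem level_norm {𝔫 : Ideal A} {I : Type} [Fintype I] {F : I → G ⧸ K → ℂ} {lam : I → J → ℂ}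
    (hs : IsSys ρ emb K Δ₀ φ f 𝔫 F lam) (L : List J)
    (hr : (∏ v, (h v * h' v)) * Nat.card (A ⧸ Ideal.span {d}) *
      ((L.map fun j => ∏ v, Q j v).prod * (L.map fun j => ∏ v, Q' j v).prod) <
        Nat.card (A ⧸ 𝔫)) [Finite (A ⧸ 𝔫)] :
    ∑ i, ‖(L.map (lam i)).prod‖ ^ 2 * ‖ip (prin ρ emb 𝔫 ⊓ Δ₀) (F i) f‖ ^ 2 ≤
      (L.map fun j => hnorm K (φ j)).prod ^ 2 * nsq (prin ρ emb 𝔫 ⊓ Δ₀) f := by
  obtain ⟨hdf, hdp⟩ := hA.prod d hc.1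
  have hdpos : (0 : ℝ) < Nat.card (A ⧸ Ideal.span {d}) := by
    exact_mod_cast Nat.card_pos
  have hT : (∏ v, (h v * h' v)) * ((L.map fun j => ∏ v, Q j v).prod *
      (L.map fun j => ∏ v, Q' j v).prod) <
      (Nat.card (A ⧸ 𝔫) : ℝ) / Nat.card (A ⧸ Ideal.span {d}) := by
    rw [lt_div_iff₀ hdpos]
    refine lt_of_eq_of_lt ?_ hr
    ring
  refine bessel (prin ρ emb 𝔫) (prin ρ emb 𝔫 ⊓ Δ₀) inf_le_left
    (stab_level hA hρ hK (prin_mono ρ emb 𝔫)) (stab_level hA hρ hK (prin_le 𝔫))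
    (locFin_kind hρ (disc_prin hρ hA (prin_mono ρ emb 𝔫)) hV (mem_level hΔ₀ 𝔫))
    (fun j => hker K (φ j)) (fun j => hnorm K (φ j)) L (fun j _ => isKer_hker (hφ j))
    (fun j _ => ⟨fun γ _ x y => hker_inv (hφ j) γ x y, hker_col (hφ j), normBd_hnorm (hφ j)⟩)
    F hs.onf lam (fun i j _ => funext fun x => hs.eig i j x) f (fun γ hγ => hf.inv γ hγ.2)
    (fin_lev hΔ₀ hf 𝔫) ?_
  refine sep_adjs hK hQ hQ1 L (frame_of_den hA le_rfl hc) hV (mem_level hΔ₀ 𝔫) hh hT _ ?_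
  intro x hx
  refine hf.supp x ?_
  intro h0
  apply hx
  rw [h0]
  simp

end level

end Pool.Agent.Helper61.XE
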