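import Pool.Agent.Helper61.XE.Unf

/-!
# Change of the level
-/

set_option autoImplicit false

open scoped ComplexConjugate

noncomputable section

namespace Pool.Agent.Helper61.XE

open Pool.Agent.Helper78.DF

variable {G : Type} [Group G] {X : Type} [MulAction G X]

theorem coset_bij {H : Type} [Group H] (S : Subgroup H) :
    Function.Bijective fun p : (H ⧸ S) × S => (p.1.out * (p.2 : H) : H) := by
  constructor
  · rintro ⟨q, s⟩ ⟨q', s'⟩ h
    have h' : q.out * (s : H) = q'.out * (s' : H) := h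
    have h1 : q = q' := by
      have e1 : (QuotientGroup.mk (q.out * (s : H)) : H ⧸ S) = q := by
        rw [QuotientGroup.mk_mul_of_mem _ s.2, QuotientGroup.out_eq']
      have e2 : (QuotientGroup.mk (q'.out * (s' : H)) : H ⧸ S) = q' := by
        rw [QuotientGroup.mk_mul_of_mem _ s'.2, QuotientGroup.out_eq']
      rw [← e1, ← e2, h']
    subst h1
    have h2 : (s : H) = s' := mul_left_cancel h'
    exact Prod.ext rfl (Subtype.ext h2)
  · intro γ
    refine ⟨(QuotientGroup.mk γ, ⟨(QuotientGroup.mk γ : H ⧸ S).out⁻¹ * γ, ?_⟩), ?_⟩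
    · rw [← QuotientGroup.eq, QuotientGroup.out_eq']
    · show (QuotientGroup.mk γ : H ⧸ S).out * ((QuotientGroup.mk γ : H ⧸ S).out⁻¹ * γ) = γ
      group

section
variable (Δ Δ₀ : Subgroup G)

theorem ip_idx (hle : Δ ≤ Δ₀) (hidx : Δ.relIndex Δ₀ ≠ 0)
    (hfin₀ : ∀ x : X, Finite (MulAction.stabilizer Δ₀ x))
    (hfin : ∀ x : X, Finite (MulAction.stabilizer Δ x)) {g₁ g₂ : X → ℂ}
    (h1 : ∀ γ ∈ Δ₀, ∀ x, g₁ (γ • x) = g₁ x) (h2 : ∀ γ ∈ Δ₀, ∀ x, g₂ (γ • x) = g₂ x)
    (h2f : {o : Orb Δ₀ X | g₂ (Quotient.out o) ≠ 0}.Finite) :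
    ip Δ g₁ g₂ = (Δ.relIndex Δ₀ : ℂ) * ip Δ₀ g₁ g₂ := by
  classical
  set S : Subgroup Δ₀ := Δ.subgroupOf Δ₀ with hS
  have hQ : Finite (Δ₀ ⧸ S) := Nat.finite_of_card_ne_zero hidx
  have := Fintype.ofFinite (Δ₀ ⧸ S)
  set h : X → ℂ := cutf Δ₀ g₂ with hh
  have hhf : (Function.support h).Finite := cutf_fin Δ₀ h2f
  have hg₂ : tr Δ₀ h = g₂ := tr_cutf Δ₀ hfin₀ h2 h2f
  set h' : X → ℂ := fun x => ∑ q : Δ₀ ⧸ S, h ((q.out : Δ₀) • x) with hh'
  have hq : ∀ q : Δ₀ ⧸ S, (Function.support fun x => h ((q.out : Δ₀) • x)).Finite := by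
    intro q
    have : (Function.support fun x => h ((q.out : Δ₀) • x)) =
        (fun x => (q.out : Δ₀) • x) ⁻¹' (Function.support h) := rfl
    rw [this]
    exact hhf.preimage (MulAction.injective (q.out : Δ₀)).injOn
  have hh'f : (Function.support h').Finite := by
    refine (Set.finite_iUnion hq).subset ?_
    intro x hx
    rw [Function.mem_support] at hx
    by_contra hcon
    apply hx
    rw [hh']
    refine Finset.sum_eq_zero fun q _ => ?_
    by_contra h3
    apply hcon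
    rw [Set.mem_iUnion]
    exact ⟨q, h3⟩
  -- the two sums over the groups
  have htr : tr Δ h' = g₂ := by
    rw [← hg₂]
    funext x
    have e1 : tr Δ h' x = ∑ q : Δ₀ ⧸ S, ∑ᶠ δ : Δ, h ((q.out : Δ₀) • ((δ : G) • x)) := by
      unfold tr
      rw [hh']
      rw [finsum_sum_comm]
      · rfl
      · intro q _
        exact tr_supp Δ hfin (hq q) x
    have e2 : tr Δ₀ h x = ∑ᶠ p : (Δ₀ ⧸ S) × S, h ((p.1.out * (p.2 : Δ₀)) • x) := by
      unfold tr
      exact (finsum_comp (fun p : (Δ₀ ⧸ S) × S => (p.1.out * (p.2 : Δ₀) : Δ₀))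
        (coset_bij S) (g := fun γ : Δ₀ => h (γ • x))).symm
    rw [e1, e2, finsum_curry]
    · rw [finsum_eq_sum_of_fintype]
      refine Finset.sum_congr rfl fun q _ => ?_
      refine (finsum_comp (Subgroup.subgroupOfEquivOfLe hle)
        (Subgroup.subgroupOfEquivOfLe hle).bijective
        (g := fun δ : Δ => h ((q.out : Δ₀) • ((δ : G) • x)))).symm.trans ?_
      refine finsum_congr fun s => ?_
      show h ((q.out : Δ₀) • (((s : Δ₀) : G) • x)) = h (((q.out : Δ₀) * (s : Δ₀)) • x)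
      rw [mul_smul]
      rfl
    · have hs := tr_supp Δ₀ hfin₀ hhf x
      exact hs.preimage (coset_bij S).1.injOn
  have hg1Δ : ∀ γ ∈ Δ, ∀ x, g₁ (γ • x) = g₁ x := fun γ hγ => h1 γ (hle hγ)
  calc ip Δ g₁ g₂ = ip Δ g₁ (tr Δ h') := by rw [htr]
    _ = conj (∑ᶠ x, h' x * conj (g₁ x)) := unfold_r Δ hfin hg1Δ hh'f
    _ = conj (∑ q : Δ₀ ⧸ S, ∑ᶠ x, h ((q.out : Δ₀) • x) * conj (g₁ x)) := by
        congr 1
        rw [← finsum_sum_comm]
        · refine finsum_congr fun x => ?_
          rw [hh', Finset.sum_mul]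
        · intro q _
          refine (hq q).subset ?_
          intro x hx
          rw [Function.mem_support] at hx
          exact left_ne_zero_of_mul hx
    _ = conj (∑ _q : Δ₀ ⧸ S, ∑ᶠ x, h x * conj (g₁ x)) := by
        congr 1
        refine Finset.sum_congr rfl fun q _ => ?_
        rw [← finsum_comp_equiv (MulAction.toPerm (q.out : Δ₀) : Equiv.Perm X)
          (f := fun x => h x * conj (g₁ x))]
        refine finsum_congr fun x => ?_
        show _ = h ((q.out : Δ₀) • x) * conj (g₁ ((q.out : Δ₀) • x))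
        congr 2
        exact (h1 _ (q.out : Δ₀).2 x).symm
    _ = (Δ.relIndex Δ₀ : ℂ) * ip Δ₀ g₁ g₂ := by
        rw [Finset.sum_const, nsmul_eq_mul, map_mul]
        congr 1
        · rw [Complex.conj_natCast]
          congr 1
          rw [Finset.card_univ, ← Nat.card_eq_fintype_card]
          rfl
        · rw [← hg₂]
          exact (unfold_r Δ₀ hfin₀ h1 hhf).symm

theorem nsq_ip (Γ : Subgroup G) (F : X → ℂ) : ip Γ F F = (nsq Γ F : ℂ) := by
  unfold ip nsq
  rw [Complex.ofReal_tsum]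
  refine tsum_congr fun o => ?_
  push_cast
  rw [Complex.mul_conj']

end

end Pool.Agent.Helper61.XE
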