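import Pool.Agent.Helper61.XE.Fin

/-!
# The equidistribution theorem
-/

set_option autoImplicit false

open scoped ENNReal ComplexConjugate Topology
open MeasureTheory Filter

noncomputable section

namespace Pool.Agent.Helper61.XE

open Pool.Agent.Helper78.DF

section comb
variable {J : Type} [Fintype J] {D : J → ℝ} {I : Type} [Fintype I]

/-- the measure with the weights `w i` at the points `x i` -/
def wm (w : I → ℝ) (x : I → Box D) : Measure (Box D) :=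
  ∑ i, ENNReal.ofReal (w i) • Measure.dirac (x i)

omit [Fintype J] in
theorem wm_prob {w : I → ℝ} (hw : ∀ i, 0 ≤ w i) (h1 : ∑ i, w i = 1) (x : I → Box D) :
    IsProbabilityMeasure (wm w x) := by
  refine ⟨?_⟩
  unfold wm
  rw [Measure.coe_finsetSum, Finset.sum_apply]
  simp only [Measure.smul_apply, Measure.dirac_apply_of_mem (Set.mem_univ _), smul_eq_mul, mul_one]
  rw [← ENNReal.ofReal_sum_of_nonneg fun i _ => hw i, h1, ENNReal.ofReal_one]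

theorem wm_int {E : Type} [NormedAddCommGroup E] [NormedSpace ℝ E] [CompleteSpace E]
    {w : I → ℝ} (hw : ∀ i, 0 ≤ w i) (x : I → Box D) (g : Box D → E) :
    ∫ z, g z ∂(wm w x) = ∑ i, w i • g (x i) := by
  unfold wm
  rw [integral_finsetSum_measure]
  · refine Finset.sum_congr rfl fun i _ => ?_
    rw [integral_smul_measure, integral_dirac, ENNReal.toReal_ofReal (hw i)]
  · intro i _
    refine Integrable.smul_measure ?_ ENNReal.ofReal_ne_top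
    exact integrable_dirac (by simp)

end comb

variable {G : Type} [Group G] {A : Type} [CommRing A] {ι : Type} [Fintype ι] {k : ι → Type}
    [∀ v, NormedField (k v)] [∀ v, IsUltrametricDist (k v)] {emb : ∀ v, A →+* k v}
    {n : ℕ} {ρ : G →* GLS n k} {K : Subgroup G} {J : Type} [Fintype J] {φ : J → G → ℝ}
    {Q Q' : J → ι → ℝ} {h h' : ι → ℝ} {c a : GLS n k} {V : Set (GLS n k)}
    {Δ₀ : Subgroup G} {f : G ⧸ K → ℂ}

/-- The main theorem. -/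
theorem main (hA : IsSInt emb) (hρ : Function.Injective ρ) (hK : ∀ κ ∈ K, Bdd (ρ κ) fun _ => 1)
    (hφ : ∀ j, IsHecke K (φ j)) (hQ : ∀ j, SizeBd ρ (φ j) (Q j) (Q' j))
    (hQ1 : ∀ j v, 1 ≤ Q j v ∧ 1 ≤ Q' j v) (hV : Kind V a) {d : A} (hc : HasDen emb c d)
    (hh : ∀ v, 0 < h v ∧ 0 < h' v ∧ 1 ≤ h v * h' v)
    (hΔ₀ : ∀ γ, γ ∈ Δ₀ ↔ γ ∈ prin ρ emb ⊤ ∧ c⁻¹ * ρ γ * c ∈ V)
    (hf : IsPer ρ K Δ₀ V c a h h' f) {H : ℝ}
    (hH : H = (∏ v, (h v * h' v)) * Nat.card (A ⧸ Ideal.span {d})) :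
    ∃ μ : Measure (J → ℂ), IsProbabilityMeasure μ ∧
      ((∀ N : ℕ, ∃ (𝔫 : Ideal A) (I : Type) (_ : Fintype I) (F : I → G ⧸ K → ℂ)
        (lam : I → J → ℂ), N ≤ Nat.card (A ⧸ 𝔫) ∧ IsSys ρ emb K Δ₀ φ f 𝔫 F lam) →
          ∀ᵐ z ∂μ, ∀ j, ‖z j‖ ≤ hnorm K (φ j)) ∧
      (∀ (𝔫 : Ideal A) (I : Type) [Fintype I] (F : I → G ⧸ K → ℂ) (lam : I → J → ℂ),
        IsSys ρ emb K Δ₀ φ f 𝔫 F lam → ∀ L L' : List J,
        H * ((L.map fun j => ∏ v, Q j v).prod * (L'.map fun j => ∏ v, Q' j v).prod) <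
          Nat.card (A ⧸ 𝔫) →
        ∑ i, (L.map (lam i)).prod * conj (L'.map (lam i)).prod *
            ((‖ip (prin ρ emb 𝔫 ⊓ Δ₀) (F i) f‖ ^ 2 : ℝ) : ℂ) =
          ip (prin ρ emb 𝔫 ⊓ Δ₀) (heckes K φ L f) (heckes K φ L' f) ∧
        ip (prin ρ emb 𝔫 ⊓ Δ₀) (heckes K φ L f) (heckes K φ L' f) =
          (∫ z, (L.map z).prod * conj (L'.map z).prod ∂μ) *
            (nsq (prin ρ emb 𝔫 ⊓ Δ₀) f : ℂ)) ∧
      ∀ t : (J → ℂ) → ℝ, Continuous t → ∀ ε : ℝ, 0 < ε → ∃ N : ℕ,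
        ∀ (𝔫 : Ideal A) (I : Type) [Fintype I] (F : I → G ⧸ K → ℂ) (lam : I → J → ℂ),
        IsSys ρ emb K Δ₀ φ f 𝔫 F lam → N ≤ Nat.card (A ⧸ 𝔫) →
        |(∑ i, t (lam i) * ‖ip (prin ρ emb 𝔫 ⊓ Δ₀) (F i) f‖ ^ 2) /
          nsq (prin ρ emb 𝔫 ⊓ Δ₀) f - ∫ z, t z ∂μ| ≤ ε := by
  classical
  have hHpos : 0 < H := by
    obtain ⟨hdf, hdp⟩ := hA.prod d hc.1
    have hdpos : (0 : ℝ) < Nat.card (A ⧸ Ideal.span {d}) := by
      exact_mod_cast Nat.card_pos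
    rw [hH]
    exact mul_pos (Finset.prod_pos fun v _ => mul_pos (hh v).1 (hh v).2.1) hdpos
  set tt : List J → List J → ℝ := fun L L' =>
    H * ((L.map fun j => ∏ v, Q j v).prod * (L'.map fun j => ∏ v, Q' j v).prod) with htt
  have htt1 : ∀ L L', H ≤ tt L L' := by
    intro L L'
    have h1 : ∀ M : List J, ∀ R : J → ι → ℝ, (∀ j v, 1 ≤ R j v) →
        1 ≤ (M.map fun j => ∏ v, R j v).prod := fun M R hR =>
      one_le_list M _ fun j => by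
        calc (1 : ℝ) = ∏ _v : ι, (1 : ℝ) := by simp
          _ ≤ ∏ v, R j v := Finset.prod_le_prod (fun _ _ => zero_le_one) fun v _ => hR j v
    exact le_mul_of_one_le_right hHpos.le (one_le_mul_of_one_le_of_one_le
      (h1 L Q fun j v => (hQ1 j v).1) (h1 L' Q' fun j v => (hQ1 j v).2))
  have hfinN : ∀ {𝔫 : Ideal A}, H < Nat.card (A ⧸ 𝔫) → Finite (A ⧸ 𝔫) := by
    intro 𝔫 h1
    refine Nat.finite_of_card_ne_zero ?_
    intro h0
    rw [h0, Nat.cast_zero] at h1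
    exact absurd h1 (not_lt.2 hHpos.le)
  have hst₀ := stab_level hA hρ hK (le_top hΔ₀)
  have hn₀ : 0 < nsq Δ₀ f := nsq_pos hA hρ hK hΔ₀ hf
  have hidx : ∀ {𝔫 : Ideal A}, H < Nat.card (A ⧸ 𝔫) →
      0 < ((prin ρ emb 𝔫 ⊓ Δ₀).relIndex Δ₀ : ℝ) := by
    intro 𝔫 h1
    have := hfinN h1
    exact_mod_cast Nat.pos_of_ne_zero (idx_level hΔ₀ 𝔫)
  have hnsq : ∀ {𝔫 : Ideal A}, H < Nat.card (A ⧸ 𝔫) → 0 < nsq (prin ρ emb 𝔫 ⊓ Δ₀) f := by
    intro 𝔫 h1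
    have := hfinN h1
    rw [level_nsq hA hρ hK hφ hΔ₀ hf 𝔫]
    exact mul_pos (hidx h1) hn₀
  -- the universal moments
  set Mom : List J → List J → ℂ := fun L L' =>
    ip Δ₀ (heckes K φ L f) (heckes K φ L' f) / (nsq Δ₀ f : ℂ) with hMom
  have hmom : ∀ {𝔫 : Ideal A}, H < Nat.card (A ⧸ 𝔫) → ∀ L L',
      ip (prin ρ emb 𝔫 ⊓ Δ₀) (heckes K φ L f) (heckes K φ L' f) =
        Mom L L' * (nsq (prin ρ emb 𝔫 ⊓ Δ₀) f : ℂ) := by
    intro 𝔫 h1 L L'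
    have := hfinN h1
    rw [level_nsq hA hρ hK hφ hΔ₀ hf 𝔫, level_ratio hA hρ hK hφ hΔ₀ hf 𝔫, hMom]
    have h2 : (nsq Δ₀ f : ℂ) ≠ 0 := by exact_mod_cast hn₀.ne'
    push_cast
    field_simp
  -- bounds for the eigenvalues
  choose D hD0 hD using fun j => eig_bd (hφ j)
  have hbd : ∀ {𝔫 : Ideal A} {I : Type} [Fintype I] {F : I → G ⧸ K → ℂ} {lam : I → J → ℂ},
      IsSys ρ emb K Δ₀ φ f 𝔫 F lam → ∀ i j, ‖lam i j‖ ≤ D j := by
    intro 𝔫 I _ F lam hs i j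
    exact hD j (prin ρ emb 𝔫) (stab_level hA hρ hK (prin_mono ρ emb 𝔫)) (F i) (hs.onf.inv i)
      (hs.onf.sq i) (hs.onf.one i) (lam i j) (hs.eig i j)
  -- the measures of the levels
  set P : ℕ → Measure (Box D) → Prop := fun N m =>
    ∃ (𝔫 : Ideal A) (I : Type) (_ : Fintype I) (F : I → G ⧸ K → ℂ) (lam : I → J → ℂ)
      (hs : IsSys ρ emb K Δ₀ φ f 𝔫 F lam), H < Nat.card (A ⧸ 𝔫) ∧ N = Nat.card (A ⧸ 𝔫) ∧
      m = wm (fun i => ‖ip (prin ρ emb 𝔫 ⊓ Δ₀) (F i) f‖ ^ 2 / nsq (prin ρ emb 𝔫 ⊓ Δ₀) f)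
        (fun i => (⟨lam i, fun j => hbd hs i j⟩ : Box D)) with hP
  have hmon : ∀ {𝔫 : Ideal A} {I : Type} [Fintype I] {F : I → G ⧸ K → ℂ} {lam : I → J → ℂ}
      (hs : IsSys ρ emb K Δ₀ φ f 𝔫 F lam), H < Nat.card (A ⧸ 𝔫) → ∀ L L',
      tt L L' < Nat.card (A ⧸ 𝔫) →
      ∫ z, mon L L' z.1 ∂(wm (fun i => ‖ip (prin ρ emb 𝔫 ⊓ Δ₀) (F i) f‖ ^ 2 /
        nsq (prin ρ emb 𝔫 ⊓ Δ₀) f) (fun i => (⟨lam i, fun j => hbd hs i j⟩ : Box D))) =
        Mom L L' := by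
    intro 𝔫 I _ F lam hs h1 L L' h2
    have h3 := hnsq h1
    rw [wm_int (fun i => div_nonneg (by positivity) h3.le) _ (fun z : Box D => mon L L' z.1)]
    have h4 := level_exact hA hρ hK hφ hQ hQ1 hV hc hh hΔ₀ hf hs L L' (by rw [← hH]; exact h2)
    rw [hmom h1] at h4
    have h5 : (nsq (prin ρ emb 𝔫 ⊓ Δ₀) f : ℂ) ≠ 0 := by exact_mod_cast h3.ne'
    rw [← mul_left_inj' h5, ← h4, Finset.sum_mul]
    refine Finset.sum_congr rfl fun i _ => ?_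
    rw [Complex.real_smul]
    unfold mon
    push_cast
    field_simp
  have hprob : ∀ N m, P N m → IsProbabilityMeasure m := by
    rintro N m ⟨𝔫, I, hI, F, lam, hs, h1, rfl, rfl⟩
    have h3 := hnsq h1
    refine wm_prob (fun i => div_nonneg (by positivity) h3.le) ?_ _
    have h4 := level_exact hA hρ hK hφ hQ hQ1 hV hc hh hΔ₀ hf hs [] [] (by
      rw [← hH]
      simpa using h1)
    have h5 : heckes K φ [] f = f := rfl
    rw [h5, nsq_ip] at h4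
    simp only [List.map_nil, List.prod_nil, map_one, mul_one, one_mul] at h4
    have h6 : ∑ i, ‖ip (prin ρ emb 𝔫 ⊓ Δ₀) (F i) f‖ ^ 2 = nsq (prin ρ emb 𝔫 ⊓ Δ₀) f := by
      exact_mod_cast h4
    rw [← Finset.sum_div, h6, div_self h3.ne']
  have huni : ∀ N m N' m', P N m → P N' m' → ∀ L L' : List J, tt L L' < N → tt L L' < N' →
      ∫ z, mon L L' z.1 ∂m = ∫ z, mon L L' z.1 ∂m' := by
    rintro N m N' m' ⟨𝔫, I, hI, F, lam, hs, h1, rfl, rfl⟩ ⟨𝔫', I', hI', F', lam', hs', h1', rfl, rfl⟩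
      L L' h2 h2'
    rw [hmon hs h1 L L' h2, hmon hs' h1' L L' h2']
  obtain ⟨μ', hμ', hmomμ, hequi⟩ := limit D hD0 hprob huni
  have hmeas : AEMeasurable (Subtype.val : Box D → (J → ℂ)) μ' :=
    measurable_subtype_coe.aemeasurable
  have hmapC : ∀ L L' : List J, ∫ z, mon L L' z ∂(μ'.map Subtype.val) = ∫ z, mon L L' z.1 ∂μ' :=
    fun L L' => integral_map hmeas (mon_cont L L').aestronglyMeasurable
  refine ⟨μ'.map Subtype.val, Measure.isProbabilityMeasure_map hmeas, ?_, ?_, ?_⟩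
  · -- the support
    intro hex
    rw [ae_map_iff hmeas]
    · rw [ae_all_iff]
      intro j
      refine supp_one j (normBd_hnorm (hφ j)).1 fun m => ?_
      set L : List J := List.replicate m j with hL
      obtain ⟨𝔫, I, hI, F, lam, hN, hs⟩ := hex (⌈tt L L⌉₊ + 1)
      have h2 : tt L L < Nat.card (A ⧸ 𝔫) := by
        refine lt_of_le_of_lt (Nat.le_ceil _) ?_
        exact_mod_cast hN
      have h1 : H < Nat.card (A ⧸ 𝔫) := lt_of_le_of_lt (htt1 L L) h2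
      have := hfinN h1
      have h3 := hmomμ _ _ ⟨𝔫, I, hI, F, lam, hs, h1, rfl, rfl⟩ L L h2
      rw [hmon hs h1 L L h2] at h3
      have h4 : ∫ z : Box D, mon L L z.1 ∂μ' = ((∫ z : Box D, ‖z.1 j‖ ^ (2 * m) ∂μ' : ℝ) : ℂ) := by
        refine Eq.trans ?_ (integral_ofReal (μ := μ') (𝕜 := ℂ)
          (f := fun z : Box D => ‖z.1 j‖ ^ (2 * m)))
        refine integral_congr_ae (Filter.Eventually.of_forall fun z => ?_)
        exact mon_rep m j z.1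
      have h5 := level_norm hA hρ hK hφ hQ hQ1 hV hc hh hΔ₀ hf hs L (by rw [← hH]; exact h2)
      have h6 := level_exact hA hρ hK hφ hQ hQ1 hV hc hh hΔ₀ hf hs L L (by rw [← hH]; exact h2)
      rw [hmom h1, h3, h4] at h6
      have h7 : ∑ i, ‖(L.map (lam i)).prod‖ ^ 2 * ‖ip (prin ρ emb 𝔫 ⊓ Δ₀) (F i) f‖ ^ 2 =
          (∫ z : Box D, ‖z.1 j‖ ^ (2 * m) ∂μ') * nsq (prin ρ emb 𝔫 ⊓ Δ₀) f := by
        have h8 : ((∑ i, ‖(L.map (lam i)).prod‖ ^ 2 *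
            ‖ip (prin ρ emb 𝔫 ⊓ Δ₀) (F i) f‖ ^ 2 : ℝ) : ℂ) =
            (((∫ z : Box D, ‖z.1 j‖ ^ (2 * m) ∂μ') * nsq (prin ρ emb 𝔫 ⊓ Δ₀) f : ℝ) : ℂ) := by
          rw [Complex.ofReal_mul, ← h6]
          push_cast
          refine Finset.sum_congr rfl fun i _ => ?_
          rw [← Complex.mul_conj' (L.map (lam i)).prod]
        exact_mod_cast h8
      rw [h7] at h5
      have h9 := le_of_mul_le_mul_right h5 (hnsq h1)
      refine h9.trans (le_of_eq ?_)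
      rw [hL, List.map_replicate, List.prod_replicate, ← pow_mul, mul_comm m 2]
    · have e : {z : J → ℂ | ∀ j, ‖z j‖ ≤ hnorm K (φ j)} =
          ⋂ j, {z : J → ℂ | ‖z j‖ ≤ hnorm K (φ j)} := by
        ext z
        simp
      rw [e]
      exact MeasurableSet.iInter fun j =>
        measurableSet_le ((measurable_pi_apply j).norm) measurable_const
  · -- the exact formula
    intro 𝔫 I _ F lam hs L L' h2
    have h1 : H < Nat.card (A ⧸ 𝔫) := lt_of_le_of_lt (htt1 L L') h2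
    refine ⟨level_exact hA hρ hK hφ hQ hQ1 hV hc hh hΔ₀ hf hs L L' (by rw [← hH]; exact h2), ?_⟩
    have h3 := hmomμ _ _ ⟨𝔫, I, inferInstance, F, lam, hs, h1, rfl, rfl⟩ L L' h2
    rw [hmon hs h1 L L' h2, ← hmapC] at h3
    rw [hmom h1, h3]
    rfl
  · -- equidistribution
    intro t ht ε hε
    obtain ⟨N₀, hN₀⟩ := hequi ⟨fun z => t z.1, ht.comp continuous_subtype_val⟩ ε hε
    refine ⟨max N₀ (⌈H⌉₊ + 1), fun 𝔫 I _ F lam hs hN => ?_⟩
    have h1 : H < Nat.card (A ⧸ 𝔫) := by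
      refine lt_of_le_of_lt (Nat.le_ceil _) ?_
      exact_mod_cast (le_max_right _ _).trans hN
    have h3 := hnsq h1
    have h4 := hN₀ _ ((le_max_left _ _).trans hN) _ ⟨𝔫, I, inferInstance, F, lam, hs, h1, rfl, rfl⟩
    rw [integral_map hmeas ht.aestronglyMeasurable]
    refine le_trans (le_of_eq ?_) h4
    congr 2
    rw [wm_int (fun i => div_nonneg (by positivity) h3.le) _
      (fun z : Box D => (⟨fun z => t z.1, ht.comp continuous_subtype_val⟩ : C(Box D, ℝ)) z)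
      , Finset.sum_div]
    refine Finset.sum_congr rfl fun i _ => ?_
    show t (lam i) * _ / _ = _ * t (lam i)
    ring

end Pool.Agent.Helper61.XE
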