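import Mathlib

/-!
# Limits of measures with compact support whose moments become constant
-/

set_option autoImplicit false

open scoped ENNReal ComplexConjugate Topology
open MeasureTheory Filter

noncomputable section

namespace Pool.Agent.Helper61.XE

/-- a polydisc -/
abbrev Box {J : Type} (D : J → ℝ) : Type := {z : J → ℂ // ∀ j, ‖z j‖ ≤ D j}

/-- the monomials -/
def mon {J : Type} (L L' : List J) (z : J → ℂ) : ℂ := (L.map z).prod * conj (L'.map z).prod

theorem mon_mul {J : Type} (L L' M M' : List J) (z : J → ℂ) :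
    mon L L' z * mon M M' z = mon (L ++ M) (L' ++ M') z := by
  unfold mon
  rw [List.map_append, List.map_append, List.prod_append, List.prod_append, map_mul]
  ring

theorem mon_star {J : Type} (L L' : List J) (z : J → ℂ) : conj (mon L L' z) = mon L' L z := by
  unfold mon
  rw [map_mul, Complex.conj_conj, mul_comm]

theorem list_cont {J : Type} (L : List J) : Continuous fun z : J → ℂ => (L.map z).prod := by
  induction L with
  | nil => simpa using continuous_const
  | cons j L ih =>
    simp only [List.map_cons, List.prod_cons]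
    exact (continuous_apply j).mul ih

theorem mon_cont {J : Type} (L L' : List J) : Continuous fun z : J → ℂ => mon L L' z :=
  (list_cont L).mul (Complex.continuous_conj.comp (list_cont L'))

/-- the polydisc is compact -/
instance box_compact {J : Type} (D : J → ℝ) : CompactSpace (Box D) := by
  have h1 : IsCompact {z : J → ℂ | ∀ j, ‖z j‖ ≤ D j} := by
    have h2 : {z : J → ℂ | ∀ j, ‖z j‖ ≤ D j} = Set.pi Set.univ fun j => Metric.closedBall 0 (D j) := by
      ext z
      simp [Set.mem_pi]
    rw [h2]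
    exact isCompact_univ_pi fun j => isCompact_closedBall 0 (D j)
  exact isCompact_iff_compactSpace.1 h1

section
variable {J : Type} [Fintype J] (D : J → ℝ)

omit [Fintype J] in
/-- the monomials as continuous functions -/
def monC (p : List J × List J) : C(Box D, ℂ) := ⟨fun z => mon p.1 p.2 z.1, (mon_cont p.1 p.2).comp continuous_subtype_val⟩

/-- the algebra of the polynomials -/
def polyAlg : StarSubalgebra ℂ C(Box D, ℂ) where
  carrier := (Submodule.span ℂ (Set.range (monC D)) : Set C(Box D, ℂ))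
  mul_mem' := by
    intro a b ha hb
    have h1 : a * b ∈ Submodule.span ℂ (Set.range (monC D)) * Submodule.span ℂ (Set.range (monC D)) :=
      Submodule.mul_mem_mul ha hb
    rw [Submodule.span_mul_span] at h1
    refine Submodule.span_mono ?_ h1
    rintro _ ⟨_, ⟨p, rfl⟩, _, ⟨q, rfl⟩, rfl⟩
    refine ⟨(p.1 ++ q.1, p.2 ++ q.2), ?_⟩
    ext z
    exact (mon_mul p.1 p.2 q.1 q.2 z.1).symm
  one_mem' := by
    refine Submodule.subset_span ⟨([], []), ?_⟩
    ext z
    simp [monC, mon]
  add_mem' := fun ha hb => Submodule.add_mem _ ha hb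
  zero_mem' := Submodule.zero_mem _
  algebraMap_mem' := by
    intro r
    have h1 : algebraMap ℂ C(Box D, ℂ) r = r • monC D ([], []) := by
      ext z
      simp [monC, mon]
    rw [h1]
    exact Submodule.smul_mem _ r (Submodule.subset_span ⟨_, rfl⟩)
  star_mem' := by
    intro a ha
    have ha' : a ∈ Submodule.span ℂ (Set.range (monC D)) := ha
    show star a ∈ Submodule.span ℂ (Set.range (monC D))
    induction ha' using Submodule.span_induction with
    | mem x hx =>
      obtain ⟨p, rfl⟩ := hx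
      refine Submodule.subset_span ⟨(p.2, p.1), ?_⟩
      ext z
      exact (mon_star p.1 p.2 z.1).symm
    | zero =>
      rw [star_zero]
      exact Submodule.zero_mem _
    | add x y hx hy h1 h2 =>
      rw [star_add]
      exact Submodule.add_mem _ (h1 hx) (h2 hy)
    | smul r x hx h1 =>
      rw [star_smul]
      exact Submodule.smul_mem _ _ (h1 hx)

theorem poly_dense (g : C(Box D, ℂ)) {ε : ℝ} (hε : 0 < ε) :
    ∃ p ∈ Submodule.span ℂ (Set.range (monC D)), ‖g - p‖ < ε := by
  have h1 : (polyAlg D).topologicalClosure = ⊤ := by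
    refine ContinuousMap.starSubalgebra_topologicalClosure_eq_top_of_separatesPoints _ ?_
    intro z w hzw
    have h2 : ∃ j, z.1 j ≠ w.1 j := by
      by_contra hcon
      push Not at hcon
      exact hzw (Subtype.ext (funext hcon))
    obtain ⟨j, hj⟩ := h2
    refine ⟨fun z => monC D ([j], []) z, ⟨monC D ([j], []), Submodule.subset_span ⟨_, rfl⟩, rfl⟩, ?_⟩
    simpa [monC, mon] using hj
  have h2 : g ∈ (polyAlg D).topologicalClosure := by
    rw [h1]
    trivial
  have h3 : g ∈ closure ((Submodule.span ℂ (Set.range (monC D)) : Set C(Box D, ℂ))) := h2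
  rw [Metric.mem_closure_iff] at h3
  obtain ⟨p, hp, hd⟩ := h3 ε hε
  exact ⟨p, hp, by rwa [dist_eq_norm] at hd⟩

theorem cont_int (m : Measure (Box D)) [IsProbabilityMeasure m] (g : C(Box D, ℂ)) :
    Integrable (fun z => g z) m := by
  refine Integrable.of_bound (map_continuous g).aestronglyMeasurable ‖g‖ ?_
  exact Filter.Eventually.of_forall fun z => g.norm_coe_le_norm z

omit [Fintype J] in
theorem int_bd (m : Measure (Box D)) [IsProbabilityMeasure m] (g : C(Box D, ℂ)) :
    ‖∫ z, g z ∂m‖ ≤ ‖g‖ := by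
  have h1 := norm_integral_le_of_norm_le_const (μ := m) (f := fun z => g z) (C := ‖g‖)
    (Filter.Eventually.of_forall fun z => g.norm_coe_le_norm z)
  simpa using h1

/-- convergence of the moments -/
theorem mom_lim {P : ℕ → Measure (Box D) → Prop} (hprob : ∀ N m, P N m → IsProbabilityMeasure m)
    {t : List J → List J → ℝ}
    (huni : ∀ N m N' m', P N m → P N' m' → ∀ L L' : List J, t L L' < N → t L L' < N' →
      ∫ z, mon L L' z.1 ∂m = ∫ z, mon L L' z.1 ∂m')
    (hinf : ∀ N : ℕ, ∃ N' ≥ N, ∃ m, P N' m) :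
    ∃ μ : Measure (Box D), IsProbabilityMeasure μ ∧
      ∀ N m, P N m → ∀ L L', t L L' < N → ∫ z, mon L L' z.1 ∂m = ∫ z, mon L L' z.1 ∂μ := by
  choose N' hN' m hm using hinf
  set ms : ℕ → ProbabilityMeasure (Box D) := fun k => ⟨m k, hprob _ _ (hm k)⟩ with hms
  set U : Ultrafilter (ProbabilityMeasure (Box D)) := (hyperfilter ℕ).map ms with hU
  have hlim : Tendsto ms (hyperfilter ℕ) (𝓝 U.lim) := by
    have h1 := U.le_nhds_lim
    exact h1
  refine ⟨(U.lim : ProbabilityMeasure (Box D)), inferInstance, fun N m₀ hm₀ L L' ht => ?_⟩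
  have h2 := (ProbabilityMeasure.tendsto_iff_forall_integral_rclike_tendsto ℂ).1 hlim
    (BoundedContinuousFunction.mkOfCompact (monC D (L, L')))
  have h3 : ∀ᶠ k in (hyperfilter ℕ : Filter ℕ),
      ∫ z, (BoundedContinuousFunction.mkOfCompact (monC D (L, L'))) z ∂(ms k : Measure (Box D)) =
        ∫ z, mon L L' z.1 ∂m₀ := by
    have h4 : ∀ᶠ k : ℕ in (atTop : Filter ℕ), t L L' < (k : ℝ) := by
      filter_upwards [eventually_gt_atTop ⌈t L L'⌉₊] with k hk
      exact lt_of_le_of_lt (Nat.le_ceil _) (by exact_mod_cast hk)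
    have h5 : (hyperfilter ℕ : Filter ℕ) ≤ atTop := Nat.hyperfilter_le_atTop
    filter_upwards [h5 h4] with k hk
    refine huni _ _ _ _ (hm k) hm₀ L L' (lt_of_lt_of_le hk ?_) ht
    exact_mod_cast hN' k
  have h6 := h2.congr' h3
  exact tendsto_nhds_unique tendsto_const_nhds h6

/-- the limit theorem -/
theorem limit (hD : ∀ j, 0 ≤ D j) {P : ℕ → Measure (Box D) → Prop}
    (hprob : ∀ N m, P N m → IsProbabilityMeasure m) {t : List J → List J → ℝ}
    (huni : ∀ N m N' m', P N m → P N' m' → ∀ L L' : List J, t L L' < N → t L L' < N' →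
      ∫ z, mon L L' z.1 ∂m = ∫ z, mon L L' z.1 ∂m') :
    ∃ μ : Measure (Box D), IsProbabilityMeasure μ ∧
      (∀ N m, P N m → ∀ L L', t L L' < N → ∫ z, mon L L' z.1 ∂m = ∫ z, mon L L' z.1 ∂μ) ∧
      ∀ g : C(Box D, ℝ), ∀ ε : ℝ, 0 < ε → ∃ N₀ : ℕ, ∀ N ≥ N₀, ∀ m, P N m →
        |∫ z, g z ∂m - ∫ z, g z ∂μ| ≤ ε := by
  classical
  by_cases hinf : ∀ N : ℕ, ∃ N' ≥ N, ∃ m, P N' m
  · obtain ⟨μ, hμ, hmom⟩ := mom_lim D hprob huni hinf
    refine ⟨μ, hμ, hmom, fun g ε hε => ?_⟩
    -- the polynomials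
    set W : Submodule ℂ C(Box D, ℂ) :=
      { carrier := {p | ∃ N₀ : ℕ, ∀ N ≥ N₀, ∀ m, P N m → ∫ z, p z ∂m = ∫ z, p z ∂μ}
        add_mem' := by
          rintro a b ⟨N₁, h1⟩ ⟨N₂, h2⟩
          refine ⟨max N₁ N₂, fun N hN m hm => ?_⟩
          have hpm := hprob N m hm
          have e : ∀ m' : Measure (Box D), IsProbabilityMeasure m' →
              ∫ z, (a + b) z ∂m' = ∫ z, a z ∂m' + ∫ z, b z ∂m' := by
            intro m' hm'
            exact integral_add (cont_int D m' a) (cont_int D m' b)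
          rw [e m hpm, e μ hμ, h1 N (le_trans (le_max_left _ _) hN) m hm,
            h2 N (le_trans (le_max_right _ _) hN) m hm]
        zero_mem' := ⟨0, fun N _ m _ => by simp⟩
        smul_mem' := by
          rintro c a ⟨N₁, h1⟩
          refine ⟨N₁, fun N hN m hm => ?_⟩
          have e : ∀ m' : Measure (Box D),
              ∫ z, (c • a) z ∂m' = c * ∫ z, a z ∂m' := by
            intro m'
            rw [← integral_const_mul]
            rfl
          rw [e, e, h1 N hN m hm] } with hW
    have hspan : Submodule.span ℂ (Set.range (monC D)) ≤ W := by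
      rw [Submodule.span_le]
      rintro _ ⟨⟨L, L'⟩, rfl⟩
      refine ⟨⌈t L L'⌉₊ + 1, fun N hN m hm => hmom N m hm L L' ?_⟩
      refine lt_of_le_of_lt (Nat.le_ceil _) ?_
      exact_mod_cast hN
    set g' : C(Box D, ℂ) := ⟨fun z => ((g z : ℝ) : ℂ), Complex.continuous_ofReal.comp g.continuous⟩
      with hg'
    obtain ⟨p, hp, hgp⟩ := poly_dense D g' (half_pos hε)
    obtain ⟨N₀, hN₀⟩ := hspan hp
    refine ⟨N₀, fun N hN m hm => ?_⟩
    have hpm := hprob N m hm
    have h1 := hN₀ N hN m hm
    have e : ∀ m' : Measure (Box D), IsProbabilityMeasure m' →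
        ‖∫ z, g' z ∂m' - ∫ z, p z ∂m'‖ ≤ ε / 2 := by
      intro m' hm'
      rw [← integral_sub (cont_int D m' g') (cont_int D m' p)]
      exact (int_bd D m' (g' - p)).trans hgp.le
    have e2 : ∀ m' : Measure (Box D), ∫ z, g' z ∂m' = ((∫ z, g z ∂m' : ℝ) : ℂ) := by
      intro m'
      exact integral_ofReal
    have h2 := e m hpm
    have h3 := e μ hμ
    rw [e2] at h2 h3
    rw [h1] at h2
    have h4 : ((∫ z, g z ∂m - ∫ z, g z ∂μ : ℝ) : ℂ) =
        (((∫ z, g z ∂m : ℝ) : ℂ) - ∫ z, p z ∂μ) - (((∫ z, g z ∂μ : ℝ) : ℂ) - ∫ z, p z ∂μ) := by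
      push_cast
      ring
    rw [← Real.norm_eq_abs, ← Complex.norm_real, h4]
    refine (norm_sub_le _ _).trans ?_
    linarith
  · push Not at hinf
    obtain ⟨B, hB⟩ := hinf
    by_cases hne : ∃ N m, P N m
    · -- the largest level
      obtain ⟨N₁, m₁, h1⟩ := hne
      set Q : ℕ → Prop := fun N => ∃ m, P N m with hQ
      have hQ1 : Q N₁ := ⟨m₁, h1⟩
      have hlt : ∀ N m, P N m → N < B := fun N m hm => by
        by_contra hcon
        exact hB N (not_lt.1 hcon) m hm
      have hmax : Q (Nat.findGreatest Q B) := Nat.findGreatest_spec (hlt N₁ m₁ h1).le hQ1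
      obtain ⟨μ, hμ⟩ := hmax
      refine ⟨μ, hprob _ _ hμ, fun N m hm L L' ht => ?_, fun g ε hε => ⟨B, fun N hN m hm =>
        absurd hm (hB N hN m)⟩⟩
      refine huni _ _ _ _ hm hμ L L' ht (lt_of_lt_of_le ht ?_)
      have h2 : N ≤ Nat.findGreatest Q B := Nat.le_findGreatest (hlt N m hm).le (⟨m, hm⟩ : Q N)
      exact_mod_cast h2
    · have z₀ : Box D := ⟨0, fun j => by simpa using hD j⟩
      refine ⟨Measure.dirac z₀, inferInstance, ?_, ?_⟩
      · intro N m hm
        exact absurd ⟨N, m, hm⟩ hne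
      · intro g ε hε
        exact ⟨0, fun N _ m hm => absurd ⟨N, m, hm⟩ hne⟩

end

end Pool.Agent.Helper61.XE
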