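import Pool.Agent.Helper61.XE.Unf
import Pool.Agent.Helper78.DF.Hecke

/-!
# Operators and sums over the group
-/

set_option autoImplicit false

open scoped ComplexConjugate

noncomputable section

namespace Pool.Agent.Helper61.XE

open Pool.Agent.Helper78.DF

variable {G : Type} [Group G] {X : Type} [MulAction G X]

theorem op_supp {κ : X → X → ℝ} (hκ : IsKer κ) {F : X → ℂ} {x : X} (hx : op κ F x ≠ 0) :
    ∃ y, κ x y ≠ 0 ∧ F y ≠ 0 := by
  rw [op_eq hκ] at hx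
  obtain ⟨y, _, hy⟩ := Finset.exists_ne_zero_of_sum_ne_zero hx
  refine ⟨y, ?_, right_ne_zero_of_mul hy⟩
  intro h0
  apply hy
  rw [h0]
  simp

theorem op_fin {κ : X → X → ℝ} (hκ : IsKer κ) (hcol : ∀ y, {x | κ x y ≠ 0}.Finite) {h : X → ℂ}
    (hh : (Function.support h).Finite) : (Function.support (op κ h)).Finite := by
  refine (hh.biUnion fun y _ => hcol y).subset ?_
  intro x hx
  obtain ⟨y, h1, h2⟩ := op_supp hκ hx
  simp only [Set.mem_iUnion]
  exact ⟨y, h2, h1⟩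

theorem op_smul_inv {κ : X → X → ℝ} (hκ : IsKer κ) {γ : G}
    (hγ : ∀ x y, κ (γ • x) (γ • y) = κ x y) (h : X → ℂ) (x : X) :
    op κ h (γ • x) = ∑ y ∈ (hκ.fin x).toFinset, (κ x y : ℂ) * h (γ • y) := by
  have e1 : op κ h (γ • x) = ∑ᶠ y, (κ x y : ℂ) * h (γ • y) := by
    unfold op
    rw [← finsum_comp_equiv (MulAction.toPerm γ : Equiv.Perm X)
      (f := fun y => (κ (γ • x) y : ℂ) * h y)]
    refine finsum_congr fun y => ?_
    show (κ (γ • x) (γ • y) : ℂ) * h (γ • y) = _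
    rw [hγ]
  rw [e1]
  refine finsum_eq_sum_of_support_subset _ ?_
  intro y hy
  rw [Function.mem_support] at hy
  have : κ x y ≠ 0 := by
    intro h
    rw [h] at hy
    simp at hy
  simpa using this

theorem op_inv {κ : X → X → ℝ} (hκ : IsKer κ) {Γ : Subgroup G}
    (hΓ : ∀ γ ∈ Γ, ∀ x y, κ (γ • x) (γ • y) = κ x y) {F : X → ℂ}
    (hF : ∀ γ ∈ Γ, ∀ x, F (γ • x) = F x) : ∀ γ ∈ Γ, ∀ x, op κ F (γ • x) = op κ F x := by
  intro γ hγ x
  rw [op_smul_inv hκ (hΓ γ hγ), op_eq hκ]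
  refine Finset.sum_congr rfl fun y _ => ?_
  rw [hF γ hγ]

theorem op_tr {κ : X → X → ℝ} (hκ : IsKer κ) (Γ : Subgroup G)
    (hfin : ∀ x : X, Finite (MulAction.stabilizer Γ x))
    (hΓ : ∀ γ ∈ Γ, ∀ x y, κ (γ • x) (γ • y) = κ x y) {h : X → ℂ}
    (hh : (Function.support h).Finite) : op κ (tr Γ h) = tr Γ (op κ h) := by
  funext x
  rw [op_eq hκ]
  unfold tr
  have e1 : ∀ γ : Γ, op κ h (γ • x) = ∑ y ∈ (hκ.fin x).toFinset, (κ x y : ℂ) * h (γ • y) :=
    fun γ => op_smul_inv hκ (hΓ γ γ.2) h x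
  rw [finsum_congr e1, finsum_sum_comm]
  · refine Finset.sum_congr rfl fun y _ => ?_
    rw [mul_finsum]
  · intro y _
    refine (tr_supp Γ hfin hh y).subset ?_
    intro γ hγ
    rw [Function.mem_support] at hγ
    exact right_ne_zero_of_mul hγ

/-- the hypotheses on the kernels -/
structure KerOK (Γ : Subgroup G) (κ : X → X → ℝ) : Prop where
  ker : IsKer κ
  col : ∀ y, {x | κ x y ≠ 0}.Finite
  inv : ∀ γ ∈ Γ, ∀ x y, κ (γ • x) (γ • y) = κ x y

theorem ops_fin {Γ : Subgroup G} (L : List (X → X → ℝ)) (hL : ∀ κ ∈ L, KerOK Γ κ) {h : X → ℂ}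
    (hh : (Function.support h).Finite) : (Function.support (ops L h)).Finite := by
  induction L with
  | nil => exact hh
  | cons κ L ih =>
    have h1 := hL κ List.mem_cons_self
    exact op_fin h1.ker h1.col (ih fun κ' h => hL κ' (List.mem_cons_of_mem _ h))

theorem ops_tr {Γ : Subgroup G} (hfin : ∀ x : X, Finite (MulAction.stabilizer Γ x))
    (L : List (X → X → ℝ)) (hL : ∀ κ ∈ L, KerOK Γ κ) {h : X → ℂ}
    (hh : (Function.support h).Finite) : ops L (tr Γ h) = tr Γ (ops L h) := by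
  induction L with
  | nil => rfl
  | cons κ L ih =>
    have h1 := hL κ List.mem_cons_self
    have hL' : ∀ κ' ∈ L, KerOK Γ κ' := fun κ' h => hL κ' (List.mem_cons_of_mem _ h)
    show op κ (ops L (tr Γ h)) = tr Γ (op κ (ops L h))
    rw [ih hL']
    exact op_tr h1.ker Γ hfin h1.inv (ops_fin L hL' hh)

theorem ops_inv {Γ : Subgroup G} (L : List (X → X → ℝ)) (hL : ∀ κ ∈ L, KerOK Γ κ) {F : X → ℂ}
    (hF : ∀ γ ∈ Γ, ∀ x, F (γ • x) = F x) : ∀ γ ∈ Γ, ∀ x, ops L F (γ • x) = ops L F x := by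
  induction L with
  | nil => exact hF
  | cons κ L ih =>
    have h1 := hL κ List.mem_cons_self
    exact op_inv h1.ker h1.inv (ih fun κ' h => hL κ' (List.mem_cons_of_mem _ h))

theorem heckes_ops {K : Subgroup G} {J : Type} (φ : J → G → ℝ) (L : List J) (f : G ⧸ K → ℂ) :
    heckes K φ L f = ops (L.map fun j => hker K (φ j)) f := by
  induction L with
  | nil => rfl
  | cons j L ih =>
    show hecke K (φ j) (heckes K φ L f) = op (hker K (φ j)) (ops _ f)
    rw [ih]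
    rfl

theorem kerOK {K : Subgroup G} {φ : G → ℝ} (hφ : IsHecke K φ) (Γ : Subgroup G) :
    KerOK Γ (hker K φ) :=
  ⟨isKer_hker hφ, hker_col hφ, fun γ _ x y => hker_inv hφ γ x y⟩

end Pool.Agent.Helper61.XE
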