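import Pool.Agent.Helper61.XE.Op
import Pool.Agent.Helper78.DF.Setup

/-!
# Separation
-/

set_option autoImplicit false

open scoped ENNReal ComplexConjugate

noncomputable section

namespace Pool.Agent.Helper61.XE

open Pool.Agent.Helper78.DF

variable {G : Type} [Group G] {ι : Type} [Fintype ι] {k : ι → Type} [∀ v, NormedField (k v)]
  [∀ v, IsUltrametricDist (k v)] {n : ℕ}

omit [Fintype ι] in
theorem supp_ops {ρ : G →* GLS n k} {K : Subgroup G} {J : Type} {φ : J → G → ℝ}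
    (hφ : ∀ j, IsHecke K (φ j))
    {Q Q' : J → ι → ℝ} (hQ : ∀ j, SizeBd ρ (φ j) (Q j) (Q' j)) (L : List J)
    (f₀ : G ⧸ K → ℂ) (y : G ⧸ K)
    (hy : ops (L.map fun j => hker K (φ j)) f₀ y ≠ 0) :
    ∃ x, f₀ x ≠ 0 ∧ ∃ s : G, y.out = x.out * s ∧
      Bdd (ρ s) (fun v => (L.map fun j => Q' j v).prod) ∧
      Bdd (ρ s)⁻¹ (fun v => (L.map fun j => Q j v).prod) := by
  induction L generalizing y with
  | nil =>
    refine ⟨y, hy, 1, by rw [mul_one], ?_, ?_⟩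
    · rw [map_one]
      simpa using bdd_one
    · have : (ρ (1 : G))⁻¹ = 1 := by simp
      rw [this]
      simpa using bdd_one
  | cons j L ih =>
    obtain ⟨y', h1, h2⟩ := op_supp (isKer_hker (hφ j)) (x := y)
      (F := ops (L.map fun j => hker K (φ j)) f₀) hy
    obtain ⟨x, hx, s', hs', hb1, hb2⟩ := ih y' h2
    obtain ⟨h3, h4⟩ := (hQ j).bdd _ h1
    refine ⟨x, hx, s' * (y.out⁻¹ * y'.out)⁻¹, ?_, ?_, ?_⟩
    · rw [hs']
      group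
    · have e : ρ (s' * (y.out⁻¹ * y'.out)⁻¹) = ρ s' * (ρ (y.out⁻¹ * y'.out))⁻¹ := by
        rw [map_mul, map_inv]
      rw [e]
      have h5 := Bdd.mul (fun v => (list_prod_pos L (fun j => Q' j v) fun j => ((hQ j).pos v).2.1).le)
        (fun v => ((hQ j).pos v).2.1.le) hb1 h4
      refine h5.mono fun v => ?_
      simp only [List.map_cons, List.prod_cons]
      rw [mul_comm]
    · have e : (ρ (s' * (y.out⁻¹ * y'.out)⁻¹))⁻¹ = ρ (y.out⁻¹ * y'.out) * (ρ s')⁻¹ := by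
        rw [map_mul, map_inv, mul_inv_rev, inv_inv]
      rw [e]
      simp only [List.map_cons, List.prod_cons]
      exact Bdd.mul (fun v => ((hQ j).pos v).1.le)
        (fun v => (list_prod_pos L _ fun j => ((hQ j).pos v).1).le) h3 hb2

/-- Small elements of a level subgroup are trivial. -/
theorem small {g : GLS n k} {B : ι → ℝ} {T : ℝ} (hB : ∀ v, 1 ≤ B v) (hT : ∏ v, B v < T)
    (hg : Sparse g T) (hM : Bdd g B) : g = 1 := by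
  refine funext fun v => Units.ext (Matrix.ext fun i j => ?_)
  rcases hg i j with h | h
  · exact h v
  · exfalso
    refine absurd (h.trans (Finset.prod_le_prod (fun v _ => norm_nonneg _) fun v _ => ?_))
      (not_le.2 hT)
    rw [sub_eq_add_neg]
    refine (IsUltrametricDist.norm_add_le_max _ _).trans (max_le (hM v i j) ?_)
    rw [norm_neg, Matrix.one_apply]
    split_ifs
    · rw [norm_one]
      exact hB v
    · rw [norm_zero]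
      exact zero_le_one.trans (hB v)

/-- the core of the separation -/
theorem sep_core {ρ : G →* GLS n k} {K : Subgroup G} (hK : ∀ κ ∈ K, Bdd (ρ κ) (fun _ => 1))
    {Γ : Subgroup G} {V : Set (GLS n k)} {c a : GLS n k} {T : ℝ} (hc : IsFrame ρ Γ c T)
    (hV : Kind V a) {h h' : ι → ℝ} (hh : ∀ v, 0 < h v ∧ 0 < h' v ∧ 1 ≤ h v * h' v)
    {q₁ q₂ : ι → ℝ} (hq : ∀ v, 1 ≤ q₁ v ∧ 1 ≤ q₂ v)
    (hT : ∏ v, (h v * h' v * (q₂ v * q₁ v)) < T)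
    {x₁ x₂ : G ⧸ K}
    (hx₁ : ∃ g : G, (QuotientGroup.mk g : G ⧸ K) = x₁ ∧ ∃ u ∈ V, ∃ b : GLS n k,
      Bdd b h ∧ Bdd b⁻¹ h' ∧ ρ g = c * u * a * b)
    (hx₂ : ∃ g : G, (QuotientGroup.mk g : G ⧸ K) = x₂ ∧ ∃ u ∈ V, ∃ b : GLS n k,
      Bdd b h ∧ Bdd b⁻¹ h' ∧ ρ g = c * u * a * b)
    {γ : G} (hγ : γ ∈ Γ) {y : G ⧸ K} {s₁ s₂ : G} (e₁ : y.out = x₁.out * s₁)
    (e₂ : (γ • y).out = x₂.out * s₂) (b₁ : Bdd (ρ s₁)⁻¹ q₁) (b₂ : Bdd (ρ s₂) q₂) :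
    c⁻¹ * ρ γ * c ∈ V := by
  obtain ⟨g₁, hg₁, u₁, hu₁, c₁, hc₁, hc₁', eg₁⟩ := hx₁
  obtain ⟨g₂, hg₂, u₂, hu₂, c₂, hc₂, hc₂', eg₂⟩ := hx₂
  obtain ⟨κ₁, hκ₁⟩ := QuotientGroup.mk_out_eq_mul K g₁
  obtain ⟨κ₂, hκ₂⟩ := QuotientGroup.mk_out_eq_mul K g₂
  obtain ⟨κ₃, hκ₃⟩ := QuotientGroup.mk_out_eq_mul K (γ * y.out)
  rw [hg₁] at hκ₁
  rw [hg₂] at hκ₂
  rw [← smul_out] at hκ₃
  -- the basic identity
  have e3 : γ * (g₁ * κ₁ * s₁) * κ₃ = g₂ * κ₂ * s₂ := by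
    rw [← hκ₁, ← e₁, ← hκ₂, ← e₂, hκ₃]
  have e4 : ρ γ * (ρ g₁ * ρ κ₁ * ρ s₁) * ρ κ₃ = ρ g₂ * ρ κ₂ * ρ s₂ := by
    have := congrArg ρ e3
    simpa using this
  rw [eg₁, eg₂] at e4
  set M : GLS n k := c₂ * ρ κ₂ * ρ s₂ * (ρ κ₃)⁻¹ * (ρ s₁)⁻¹ * (ρ κ₁)⁻¹ * c₁⁻¹
    with hM
  have e5 : (c⁻¹ * ρ γ * c) * u₁ * a = u₂ * a * M := by
    have h3 : ρ γ * (c * u₁ * a * c₁) =
        c * u₂ * a * c₂ * ρ κ₂ * ρ s₂ * (ρ κ₃)⁻¹ * (ρ s₁)⁻¹ * (ρ κ₁)⁻¹ := by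
      rw [← e4]
      group
    calc (c⁻¹ * ρ γ * c) * u₁ * a
        = c⁻¹ * (ρ γ * (c * u₁ * a * c₁)) * c₁⁻¹ := by group
      _ = _ := by
          rw [h3, hM]
          group
  have hq₁ : ∀ v, 0 < q₁ v := fun v => lt_of_lt_of_le zero_lt_one (hq v).1
  have hq₂ : ∀ v, 0 < q₂ v := fun v => lt_of_lt_of_le zero_lt_one (hq v).2
  have hMb : Bdd M (fun v => h v * h' v * (q₂ v * q₁ v)) := by
    have hKi : ∀ κ : K, Bdd (ρ (κ : G))⁻¹ (fun _ => 1) := by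
      intro κ
      have := hK _ (K.inv_mem κ.2)
      rwa [map_inv] at this
    have t1 := Bdd.mul (fun v => (hh v).1.le) (fun v => zero_le_one) hc₂ (hK _ κ₂.2)
    have t2 := Bdd.mul (fun v => by have := (hh v).1; positivity) (fun v => (hq₂ v).le) t1 b₂
    have t3 := Bdd.mul (fun v => by have := (hh v).1; have := hq₂ v; positivity)
      (fun v => zero_le_one) t2 (hKi κ₃)
    have t4 := Bdd.mul (fun v => by have := (hh v).1; have := hq₂ v; positivity)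
      (fun v => (hq₁ v).le) t3 b₁
    have t5 := Bdd.mul (fun v => by have := (hh v).1; have := hq₂ v; have := hq₁ v; positivity)
      (fun v => zero_le_one) t4 (hKi κ₁)
    have t6 := Bdd.mul (fun v => by have := (hh v).1; have := hq₂ v; have := hq₁ v; positivity)
      (fun v => (hh v).2.1.le) t5 hc₁'
    refine t6.mono fun v => le_of_eq ?_
    ring
  have hB : ∀ v, 1 ≤ h v * h' v * (q₂ v * q₁ v) := fun v =>
    one_le_mul_of_one_le_of_one_le (hh v).2.2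
      (one_le_mul_of_one_le_of_one_le (hq v).2 (hq v).1)
  rcases hV with ⟨hV, ha⟩ | ⟨hV, ha⟩
  · rw [hV, Set.mem_singleton_iff] at hu₁ hu₂
    rw [hV, Set.mem_singleton_iff]
    rw [hu₁, hu₂, ha, mul_one, mul_one, mul_one, one_mul] at e5
    exact small hB hT (hc γ hγ) (e5 ▸ hMb)
  · rw [hV] at hu₁ hu₂ ⊢
    exact corner (B := fun v => h v * h' v * (q₂ v * q₁ v)) hB hT (hc γ hγ) hu₂ hu₁ ha hMb e5

omit [∀ v, IsUltrametricDist (k v)] in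
theorem prod_list {J : Type} (L : List J) (Q : J → ι → ℝ) :
    ∏ v, (L.map fun j => Q j v).prod = (L.map fun j => ∏ v, Q j v).prod := by
  induction L with
  | nil => simp
  | cons j L ih =>
    simp only [List.map_cons, List.prod_cons]
    rw [Finset.prod_mul_distrib, ih]

theorem one_le_list {J : Type} (L : List J) (f : J → ℝ) (hf : ∀ j, 1 ≤ f j) :
    1 ≤ (L.map f).prod := by
  induction L with
  | nil => simp
  | cons j L ih =>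
    rw [List.map_cons, List.prod_cons]
    exact one_le_mul_of_one_le_of_one_le (hf j) ih

/-- separation for products of Hecke operators -/
theorem sep_ops {ρ : G →* GLS n k} {K : Subgroup G} (hK : ∀ κ ∈ K, Bdd (ρ κ) (fun _ => 1))
    {J : Type} {φ : J → G → ℝ} (hφ : ∀ j, IsHecke K (φ j)) {Q Q' : J → ι → ℝ}
    (hQ : ∀ j, SizeBd ρ (φ j) (Q j) (Q' j)) (hQ1 : ∀ j v, 1 ≤ Q j v ∧ 1 ≤ Q' j v)
    (L L' : List J) {Γ Δ : Subgroup G} {V : Set (GLS n k)} {c a : GLS n k} {T : ℝ}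
    (hc : IsFrame ρ Γ c T) (hV : Kind V a)
    (hΔ : ∀ γ, γ ∈ Δ ↔ γ ∈ Γ ∧ c⁻¹ * ρ γ * c ∈ V) {h h' : ι → ℝ}
    (hh : ∀ v, 0 < h v ∧ 0 < h' v ∧ 1 ≤ h v * h' v)
    (hT : (∏ v, (h v * h' v)) * ((L.map fun j => ∏ v, Q j v).prod *
      (L'.map fun j => ∏ v, Q' j v).prod) < T)
    (f₀ : G ⧸ K → ℂ) (hf₀ : ∀ x, f₀ x ≠ 0 → ∃ g : G, (QuotientGroup.mk g : G ⧸ K) = x ∧
      ∃ u ∈ V, ∃ b : GLS n k, Bdd b h ∧ Bdd b⁻¹ h' ∧ ρ g = c * u * a * b) :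
    ∀ γ ∈ Γ, ∀ x, ops (L.map fun j => hker K (φ j)) f₀ (γ • x) ≠ 0 →
      ops (L'.map fun j => hker K (φ j)) f₀ x ≠ 0 → γ ∈ Δ := by
  intro γ hγ x h1 h2
  obtain ⟨x₁, hx₁, s₁, e₁, b₁, b₁'⟩ := supp_ops hφ hQ L f₀ (γ • x) h1
  obtain ⟨x₂, hx₂, s₂, e₂, b₂, b₂'⟩ := supp_ops hφ hQ L' f₀ x h2
  have hγi : γ⁻¹ ∈ Γ := Γ.inv_mem hγ
  have e₂' : (γ⁻¹ • (γ • x)).out = x₂.out * s₂ := by
    rw [inv_smul_smul]
    exact e₂
  have key := sep_core hK hc hV hh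
    (q₁ := fun v => (L.map fun j => Q j v).prod) (q₂ := fun v => (L'.map fun j => Q' j v).prod)
    (fun v => ⟨one_le_list L _ fun j => (hQ1 j v).1, one_le_list L' _ fun j => (hQ1 j v).2⟩)
    (by
      refine lt_of_eq_of_lt ?_ hT
      rw [Finset.prod_mul_distrib, Finset.prod_mul_distrib, Finset.prod_mul_distrib, prod_list,
        prod_list]
      rw [mul_comm (L.map fun j => ∏ v, Q j v).prod])
    (hf₀ x₁ hx₁) (hf₀ x₂ hx₂) hγi e₁ e₂' b₁' b₂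
  have hmem : γ⁻¹ ∈ Δ := (hΔ _).2 ⟨hγi, key⟩
  exact (Subgroup.inv_mem_iff Δ).1 hmem

/-- separation for the adjoint operators -/
theorem sep_adjs {ρ : G →* GLS n k} {K : Subgroup G} (hK : ∀ κ ∈ K, Bdd (ρ κ) (fun _ => 1))
    {J : Type} {φ : J → G → ℝ} {Q Q' : J → ι → ℝ}
    (hQ : ∀ j, SizeBd ρ (φ j) (Q j) (Q' j)) (hQ1 : ∀ j v, 1 ≤ Q j v ∧ 1 ≤ Q' j v)
    (L : List J) {Γ Δ : Subgroup G} {V : Set (GLS n k)} {c a : GLS n k} {T : ℝ}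
    (hc : IsFrame ρ Γ c T) (hV : Kind V a)
    (hΔ : ∀ γ, γ ∈ Δ ↔ γ ∈ Γ ∧ c⁻¹ * ρ γ * c ∈ V) {h h' : ι → ℝ}
    (hh : ∀ v, 0 < h v ∧ 0 < h' v ∧ 1 ≤ h v * h' v)
    (hT : (∏ v, (h v * h' v)) * ((L.map fun j => ∏ v, Q j v).prod *
      (L.map fun j => ∏ v, Q' j v).prod) < T)
    (f₀ : G ⧸ K → ℝ≥0∞) (hf₀ : ∀ x, f₀ x ≠ 0 → ∃ g : G, (QuotientGroup.mk g : G ⧸ K) = x ∧
      ∃ u ∈ V, ∃ b : GLS n k, Bdd b h ∧ Bdd b⁻¹ h' ∧ ρ g = c * u * a * b) :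
    ∀ γ ∈ Γ, ∀ y, adjs ((L.map fun j => hker K (φ j)).map ke) f₀ y ≠ 0 →
      adjs ((L.map fun j => hker K (φ j)).map ke) f₀ (γ • y) ≠ 0 → γ ∈ Δ := by
  intro γ hγ y h1 h2
  obtain ⟨x₁, hx₁, s₁, e₁, b₁, b₁'⟩ := supp_adjs hQ L f₀ y h1
  obtain ⟨x₂, hx₂, s₂, e₂, b₂, b₂'⟩ := supp_adjs hQ L f₀ (γ • y) h2
  have key := sep_core hK hc hV hh
    (q₁ := fun v => (L.map fun j => Q' j v).prod) (q₂ := fun v => (L.map fun j => Q j v).prod)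
    (fun v => ⟨one_le_list L _ fun j => (hQ1 j v).2, one_le_list L _ fun j => (hQ1 j v).1⟩)
    (by
      refine lt_of_eq_of_lt ?_ hT
      rw [Finset.prod_mul_distrib, Finset.prod_mul_distrib, Finset.prod_mul_distrib, prod_list,
        prod_list])
    (hf₀ x₁ hx₁) (hf₀ x₂ hx₂) hγ e₁ e₂ b₁' b₂
  exact (hΔ _).2 ⟨hγ, key⟩

end Pool.Agent.Helper61.XE
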