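import Pool.Agent.Helper61.XE.Idx
import Pool.Agent.Helper61.XE.Op

/-!
# The exact formula for a complete system
-/

set_option autoImplicit false

open scoped ComplexConjugate

noncomputable section

namespace Pool.Agent.Helper61.XE

open Pool.Agent.Helper78.DF

variable {G : Type} [Group G] {X : Type} [MulAction G X]

section
variable (Γ : Subgroup G)

/-- square summable -/
def Sq (F : X → ℂ) : Prop :=
  Summable fun o : Orb Γ X => ‖F (Quotient.out o)‖ ^ 2 / (sc Γ (Quotient.out o) : ℝ)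

variable {Γ}

theorem Sq.add {F H : X → ℂ} (hF : Sq Γ F) (hH : Sq Γ H) : Sq Γ fun x => F x + H x := by
  refine Summable.of_nonneg_of_le (fun o => by positivity) (fun o => ?_)
    ((hF.mul_left 2).add (hH.mul_left 2))
  rw [← mul_div_assoc, ← mul_div_assoc, ← add_div]
  refine div_le_div_of_nonneg_right ?_ (Nat.cast_nonneg _)
  have h1 := norm_add_le (F (Quotient.out o)) (H (Quotient.out o))
  have h2 := norm_nonneg (F (Quotient.out o) + H (Quotient.out o))
  nlinarith [sq_nonneg (‖F (Quotient.out o)‖ - ‖H (Quotient.out o)‖),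
    norm_nonneg (F (Quotient.out o)), norm_nonneg (H (Quotient.out o))]

theorem Sq.smul {F : X → ℂ} (hF : Sq Γ F) (c : ℂ) : Sq Γ fun x => c * F x := by
  refine (hF.mul_left (‖c‖ ^ 2)).congr fun o => ?_
  rw [norm_mul]
  ring

theorem Sq.zero : Sq Γ fun _ : X => (0 : ℂ) := by
  refine summable_zero.congr fun o => ?_
  simp

theorem Sq.sum {I : Type} (s : Finset I) {F : I → X → ℂ} (hF : ∀ i ∈ s, Sq Γ (F i)) (z : I → ℂ) :
    Sq Γ fun x => ∑ i ∈ s, z i * F i x := by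
  classical
  induction s using Finset.induction_on with
  | empty => simpa using Sq.zero
  | insert a s ha ih =>
    have h1 := ((hF a (Finset.mem_insert_self a s)).smul (z a)).add
      (ih fun i hi => hF i (Finset.mem_insert_of_mem hi))
    simpa [Finset.sum_insert ha] using h1

theorem ip_add_l {F F' H : X → ℂ} (hF : Sq Γ F) (hF' : Sq Γ F') (hH : Sq Γ H) :
    ip Γ (fun x => F x + F' x) H = ip Γ F H + ip Γ F' H := by
  unfold ip
  rw [← (summ_mul Γ hF hH).tsum_add (summ_mul Γ hF' hH)]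
  refine tsum_congr fun o => ?_
  rw [add_mul, add_div]

theorem ip_smul_l (c : ℂ) (F H : X → ℂ) : ip Γ (fun x => c * F x) H = c * ip Γ F H := by
  unfold ip
  rw [← tsum_mul_left]
  refine tsum_congr fun o => ?_
  ring

theorem ip_sum_l {I : Type} (s : Finset I) {F : I → X → ℂ} (hF : ∀ i ∈ s, Sq Γ (F i)) (z : I → ℂ)
    {H : X → ℂ} (hH : Sq Γ H) :
    ip Γ (fun x => ∑ i ∈ s, z i * F i x) H = ∑ i ∈ s, z i * ip Γ (F i) H := by
  classical
  induction s using Finset.induction_on with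
  | empty =>
    simp [ip]
  | insert a s ha ih =>
    rw [Finset.sum_insert ha, ← ih fun i hi => hF i (Finset.mem_insert_of_mem hi),
      ← ip_smul_l (z a) (F a) H,
      ← ip_add_l ((hF a (Finset.mem_insert_self a s)).smul (z a))
        (Sq.sum s (fun i hi => hF i (Finset.mem_insert_of_mem hi)) z) hH]
    congr 1
    funext x
    rw [Finset.sum_insert ha]

theorem ip_sum_r {I : Type} (s : Finset I) {F : I → X → ℂ} (hF : ∀ i ∈ s, Sq Γ (F i)) (z : I → ℂ)
    {H : X → ℂ} (hH : Sq Γ H) :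
    ip Γ H (fun x => ∑ i ∈ s, z i * F i x) = ∑ i ∈ s, conj (z i) * ip Γ H (F i) := by
  rw [ip_symm, ip_sum_l s hF z hH, map_sum]
  refine Finset.sum_congr rfl fun i _ => ?_
  rw [map_mul, ← ip_symm]

theorem nsq_zero (hfin : ∀ x : X, Finite (MulAction.stabilizer Γ x)) {F : X → ℂ} (hF : Sq Γ F)
    (hinv : ∀ γ ∈ Γ, ∀ x, F (γ • x) = F x) (h0 : nsq Γ F = 0) : F = 0 := by
  have h1 : ∀ o : Orb Γ X, ‖F (Quotient.out o)‖ ^ 2 / (sc Γ (Quotient.out o) : ℝ) = 0 := by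
    intro o
    have h2 := (hasSum_zero_iff_of_nonneg (fun o : Orb Γ X => by positivity)).1
      (h0 ▸ hF.hasSum : HasSum (fun o : Orb Γ X => ‖F (Quotient.out o)‖ ^ 2 /
        (sc Γ (Quotient.out o) : ℝ)) 0)
    exact congrFun h2 o
  funext x
  have hrel : (MulAction.orbitRel Γ X).r (Quotient.out (Quotient.mk (MulAction.orbitRel Γ X) x)) x :=
    Quotient.mk_out (s := MulAction.orbitRel Γ X) x
  obtain ⟨γ, hγ⟩ : ∃ γ : Γ, γ • x = Quotient.out (Quotient.mk (MulAction.orbitRel Γ X) x) := hrel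
  have h3 := h1 (Quotient.mk (MulAction.orbitRel Γ X) x)
  have hs : (sc Γ (Quotient.out (Quotient.mk (MulAction.orbitRel Γ X) x)) : ℝ) ≠ 0 := by
    exact_mod_cast (sc_pos Γ hfin _).ne'
  rw [div_eq_zero_iff, or_iff_left hs, sq_eq_zero_iff, norm_eq_zero, ← hγ] at h3
  rw [← hinv γ γ.2 x]
  exact h3

theorem tr_orb {h : X → ℂ} (hfin : ∀ x : X, Finite (MulAction.stabilizer Γ x))
    (hh : (Function.support h).Finite) : {o : Orb Γ X | tr Γ h (Quotient.out o) ≠ 0}.Finite := by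
  refine (hh.image (Quotient.mk (MulAction.orbitRel Γ X))).subset ?_
  intro o ho
  have ho' : tr Γ h (Quotient.out o) ≠ 0 := ho
  rw [tr_eq Γ hfin hh] at ho'
  obtain ⟨y, hy, hne⟩ := Finset.exists_ne_zero_of_sum_ne_zero ho'
  refine ⟨y, left_ne_zero_of_mul hne, ?_⟩
  by_contra hcon
  apply right_ne_zero_of_mul hne
  rw [cnt_zero]
  · simp
  · rintro ⟨γ, hγ⟩
    apply hcon
    rw [← Quotient.out_eq o]
    exact Quotient.sound (show (MulAction.orbitRel Γ X).r y (Quotient.out o) from ⟨γ, hγ⟩)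

theorem Sq.of_fin {F : X → ℂ} (hF : {o : Orb Γ X | F (Quotient.out o) ≠ 0}.Finite) : Sq Γ F := by
  refine summable_of_hasFiniteSupport (hF.subset ?_)
  intro o ho
  rw [Function.mem_support] at ho
  intro h
  apply ho
  rw [h]
  simp

end

section
variable {Γ Δ : Subgroup G}

/-- The exact formula. -/
theorem sys_exact (hfin : ∀ x : X, Finite (MulAction.stabilizer Γ x))
    (hfinΔ : ∀ x : X, Finite (MulAction.stabilizer Δ x)) (hΔ : Δ ≤ Γ)
    {J : Type} {κ : J → X → X → ℝ} (hκ : ∀ j, KerOK Γ (κ j))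
    {I : Type} [Fintype I] {F : I → X → ℂ} (hF : IsONF Γ F) {lam : I → J → ℂ}
    (hlam : ∀ i j, op (κ j) (F i) = fun x => lam i j * F i x)
    {f : X → ℂ} (hf : ∀ γ ∈ Δ, ∀ x, f (γ • x) = f x)
    (hff : {o : Orb Δ X | f (Quotient.out o) ≠ 0}.Finite)
    (hcomp : ∀ Φ : X → ℂ, (∀ γ ∈ Γ, ∀ x, Φ (γ • x) = Φ x) → Sq Γ Φ →
      (∀ i, ip Γ Φ (F i) = 0) → ip Δ Φ f = 0)
    (L L' : List J)
    (sep : ∀ γ ∈ Γ, ∀ x, ops (L.map κ) (cutf Δ f) (γ • x) ≠ 0 →
      ops (L'.map κ) (cutf Δ f) x ≠ 0 → γ ∈ Δ) :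
    ∑ i, (L.map (lam i)).prod * conj (L'.map (lam i)).prod * ((‖ip Δ (F i) f‖ ^ 2 : ℝ) : ℂ) =
      ip Δ (ops (L.map κ) f) (ops (L'.map κ) f) := by
  classical
  set h : X → ℂ := cutf Δ f with hh
  have hhf : (Function.support h).Finite := cutf_fin Δ hff
  have hftr : tr Δ h = f := tr_cutf Δ hfinΔ hf hff
  set P : X → ℂ := tr Γ h with hP
  have hPinv : ∀ γ ∈ Γ, ∀ x, P (γ • x) = P x := tr_inv Γ h
  have hPsq : Sq Γ P := Sq.of_fin (tr_orb hfin hhf)
  have hKL : ∀ M : List J, ∀ κ' ∈ M.map κ, KerOK Γ κ' := by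
    intro M κ' h
    obtain ⟨j, _, rfl⟩ := List.mem_map.1 h
    exact hκ j
  have hKLΔ : ∀ M : List J, ∀ κ' ∈ M.map κ, KerOK Δ κ' := by
    intro M κ' h
    have h1 := hKL M κ' h
    exact ⟨h1.ker, h1.col, fun γ hγ => h1.inv γ (hΔ hγ)⟩
  -- periods
  have hunf : ∀ Φ : X → ℂ, (∀ γ ∈ Γ, ∀ x, Φ (γ • x) = Φ x) → ip Γ Φ P = ip Δ Φ f := by
    intro Φ hΦ
    rw [hP, unfold_r Γ hfin hΦ hhf, ← hftr, unfold_r Δ hfinΔ (fun γ hγ => hΦ γ (hΔ hγ)) hhf]
  set a : I → ℂ := fun i => ip Γ P (F i) with ha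
  have ha2 : ∀ i, ip Δ (F i) f = conj (a i) := by
    intro i
    rw [← hunf (F i) (hF.inv i), ip_symm]
  -- the expansion of `P`
  set Φ : X → ℂ := fun x => P x + -1 * ∑ i, a i * F i x with hΦ
  have hSsq : Sq Γ fun x => ∑ i, a i * F i x := Sq.sum Finset.univ (fun i _ => hF.sq i) a
  have hSsq' : Sq Γ fun x => -1 * ∑ i, a i * F i x := hSsq.smul (-1)
  have hΦsq : Sq Γ Φ := hPsq.add hSsq'
  have hΦinv : ∀ γ ∈ Γ, ∀ x, Φ (γ • x) = Φ x := by
    intro γ hγ x
    rw [hΦ]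
    simp only
    rw [hPinv γ hγ]
    congr 2
    exact Finset.sum_congr rfl fun i _ => by rw [hF.inv i γ hγ x]
  have hΦF : ∀ j, ip Γ Φ (F j) = 0 := by
    intro j
    rw [hΦ, ip_add_l hPsq hSsq' (hF.sq j), ip_smul_l, ip_sum_l _ (fun i _ => hF.sq i) _ (hF.sq j),
      Finset.sum_eq_single j]
    · rw [hF.one j, ha]
      ring
    · intro i _ hij
      rw [hF.zero i j hij, mul_zero]
    · intro h
      exact absurd (Finset.mem_univ j) h
  have h0 : ip Γ Φ P = 0 := by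
    rw [hunf Φ hΦinv]
    exact hcomp Φ hΦinv hΦsq hΦF
  have h1 : ip Γ Φ Φ = 0 := by
    have e : ip Γ Φ Φ = ip Γ P Φ + -1 * ip Γ (fun x => ∑ i, a i * F i x) Φ := by
      conv_lhs => rw [hΦ]
      rw [ip_add_l hPsq hSsq' hΦsq, ip_smul_l]
    rw [e, ip_sum_l _ (fun i _ => hF.sq i) _ hΦsq, ip_symm, h0, map_zero, zero_add]
    rw [Finset.sum_eq_zero, mul_zero]
    intro i _
    rw [ip_symm, hΦF i, map_zero, mul_zero]
  have h2 : Φ = 0 := by
    refine nsq_zero hfin hΦsq hΦinv ?_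
    rw [nsq_ip] at h1
    exact_mod_cast h1
  have hPexp : P = fun x => ∑ i, a i * F i x := by
    funext x
    have h3 := congrFun h2 x
    have h4 : P x + -1 * ∑ i, a i * F i x = 0 := h3
    linear_combination h4
  -- operators
  have hopsP : ∀ M : List J, ops (M.map κ) P =
      fun x => ∑ i, (a i * (M.map (lam i)).prod) * F i x := by
    intro M
    rw [hPexp, ops_sum _ _ _ _ (fun κ' h => (hKL M κ' h).ker)]
    funext x
    refine Finset.sum_congr rfl fun i _ => ?_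
    rw [ops_eigen κ (F i) (lam i) M (fun j _ => (hκ j).ker) (fun j _ => hlam i j), mul_assoc]
  have hA : ip Γ (ops (L.map κ) P) (ops (L'.map κ) P) =
      ∑ i, (L.map (lam i)).prod * conj (L'.map (lam i)).prod * ((‖ip Δ (F i) f‖ ^ 2 : ℝ) : ℂ) := by
    rw [hopsP L, hopsP L', ip_sum_l _ (fun i _ => hF.sq i) _
      (Sq.sum Finset.univ (fun i _ => hF.sq i) _)]
    refine Finset.sum_congr rfl fun i _ => ?_
    rw [ip_sum_r _ (fun i _ => hF.sq i) _ (hF.sq i), Finset.sum_eq_single i]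
    · rw [hF.one i, ha2 i, RCLike.norm_conj]
      push_cast
      rw [← Complex.mul_conj', map_mul]
      ring
    · intro j _ hij
      rw [hF.zero i j (Ne.symm hij), mul_zero]
    · intro h
      exact absurd (Finset.mem_univ i) h
  have hB : ip Γ (ops (L.map κ) P) (ops (L'.map κ) P) =
      ip Δ (ops (L.map κ) f) (ops (L'.map κ) f) := by
    rw [hP, ops_tr hfin _ (hKL L) hhf, ops_tr hfin _ (hKL L') hhf,
      ip_sep Γ Δ hΔ hfin hfinΔ (ops_fin _ (hKL L') hhf) sep,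
      ← ops_tr hfinΔ _ (hKLΔ L) hhf, ← ops_tr hfinΔ _ (hKLΔ L') hhf, hftr]
  rw [← hA, hB]

end

end Pool.Agent.Helper61.XE
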