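import Pool.Agent.Helper78.DF.Cpx
import Pool.Agent.Helper61.XE.Defs

/-!
# Unfolding with complex values
-/

set_option autoImplicit false

open scoped ComplexConjugate

noncomputable section

namespace Pool.Agent.Helper61.XE

open Pool.Agent.Helper78.DF

variable {G : Type} [Group G] {X : Type} [MulAction G X]

/-- the sum over the group -/
def tr (Γ : Subgroup G) (h : X → ℂ) (x : X) : ℂ := ∑ᶠ γ : Γ, h (γ • x)

/-- the number of elements of `Γ` which map `x` to `y` -/
def cnt (Γ : Subgroup G) (x y : X) : ℕ := Nat.card {γ : Γ // γ • x = y}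

section
variable (Γ : Subgroup G)

theorem cnt_left {x y : X} (h : ∃ γ : Γ, γ • x = y) : cnt Γ x y = sc Γ x := by
  obtain ⟨γ₀, h0⟩ := h
  refine Nat.card_congr ⟨fun s => ⟨γ₀⁻¹ * s.1, ?_⟩, fun t => ⟨γ₀ * t.1, ?_⟩, fun s => ?_, fun t => ?_⟩
  · show (γ₀⁻¹ * s.1) • x = x
    have h1 : s.1 • x = y := s.2
    rw [mul_smul, h1]
    exact inv_smul_eq_iff.2 h0.symm
  · rw [mul_smul]
    have : (t : Γ) • x = x := t.2
    rw [this, h0]
  · exact Subtype.ext (by simp)
  · exact Subtype.ext (by simp)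

theorem cnt_right {x y : X} (h : ∃ γ : Γ, γ • x = y) : cnt Γ x y = sc Γ y := by
  obtain ⟨γ₀, h0⟩ := h
  refine Nat.card_congr ⟨fun s => ⟨s.1 * γ₀⁻¹, ?_⟩, fun t => ⟨t.1 * γ₀, ?_⟩, fun s => ?_, fun t => ?_⟩
  · show (s.1 * γ₀⁻¹) • y = y
    have h1 : s.1 • x = y := s.2
    rw [mul_smul, inv_smul_eq_iff.2 h0.symm, h1]
  · rw [mul_smul, h0]
    exact t.2
  · exact Subtype.ext (by simp)
  · exact Subtype.ext (by simp)

theorem cnt_zero {x y : X} (h : ¬ ∃ γ : Γ, γ • x = y) : cnt Γ x y = 0 := by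
  have : IsEmpty {γ : Γ // γ • x = y} := ⟨fun s => h ⟨s.1, s.2⟩⟩
  exact Nat.card_of_isEmpty

variable (hfin : ∀ x : X, Finite (MulAction.stabilizer Γ x))

include hfin in
theorem fib_fin (x y : X) : {γ : Γ | γ • x = y}.Finite := by
  by_cases h : ∃ γ₀ : Γ, γ₀ • x = y
  · obtain ⟨γ₀, h0⟩ := h
    have := hfin x
    refine ((Set.toFinite ((MulAction.stabilizer Γ x : Set Γ))).image (fun s => γ₀ * s)).subset ?_
    intro γ hγ
    refine ⟨γ₀⁻¹ * γ, ?_, by simp⟩
    show (γ₀⁻¹ * γ) • x = x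
    have hγ' : γ • x = y := hγ
    rw [mul_smul, hγ', ← h0, inv_smul_smul]
  · have : {γ : Γ | γ • x = y} = ∅ := by
      ext γ
      simp only [Set.mem_ofPred_eq, Set.mem_empty_iff_false, iff_false]
      exact fun h' => h ⟨γ, h'⟩
    rw [this]
    exact Set.finite_empty

include hfin in
theorem sc_pos (x : X) : 0 < sc Γ x := by
  have := hfin x
  exact Nat.card_pos

include hfin in
theorem tr_supp {h : X → ℂ} (hh : (Function.support h).Finite) (x : X) :
    (Function.support fun γ : Γ => h (γ • x)).Finite := by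
  refine (hh.biUnion fun y _ => fib_fin Γ hfin x y).subset ?_
  intro γ hγ
  simp only [Set.mem_iUnion]
  exact ⟨γ • x, hγ, rfl⟩

theorem tr_inv (h : X → ℂ) : ∀ γ ∈ Γ, ∀ x, tr Γ h (γ • x) = tr Γ h x := by
  intro γ hγ x
  unfold tr
  rw [← finsum_comp_equiv (Equiv.mulRight (⟨γ, hγ⟩ : Γ)) (f := fun γ' : Γ => h (γ' • x))]
  refine finsum_congr fun γ' => ?_
  show h (γ' • γ • x) = h ((γ' * ⟨γ, hγ⟩ : Γ) • x)
  rw [mul_smul]
  rfl

include hfin in
theorem tr_eq {h : X → ℂ} (hh : (Function.support h).Finite) (x : X) :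
    tr Γ h x = ∑ y ∈ hh.toFinset, h y * (cnt Γ x y : ℂ) := by
  classical
  have h1 : ∀ γ : Γ, h (γ • x) = ∑ y ∈ hh.toFinset, if γ • x = y then h y else 0 := by
    intro γ
    rw [Finset.sum_ite_eq]
    split_ifs with h2
    · rfl
    · simpa using h2
  unfold tr
  rw [finsum_congr h1, finsum_sum_comm]
  · refine Finset.sum_congr rfl fun y _ => ?_
    have h2 : ∀ γ : Γ, (if γ • x = y then h y else 0) = h y * (if γ • x = y then 1 else 0) := by
      intro γ
      split_ifs <;> simp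
    rw [finsum_congr h2, ← mul_finsum]
    · congr 1
      have hf := fib_fin Γ hfin x y
      rw [finsum_eq_sum_of_support_subset (s := hf.toFinset)]
      · rw [Finset.sum_congr rfl (g := fun _ => (1 : ℂ))]
        · rw [Finset.sum_const, nsmul_eq_mul, mul_one]
          unfold cnt
          rw [← Nat.card_eq_card_finite_toFinset hf]
          rfl
        · intro γ hγ
          rw [Set.Finite.mem_toFinset] at hγ
          exact if_pos hγ
      · intro γ hγ
        rw [Function.mem_support] at hγ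
        simp only [Set.Finite.coe_toFinset, Set.mem_ofPred_eq]
        by_contra h3
        exact hγ (if_neg h3)
  · intro y _
    refine (fib_fin Γ hfin x y).subset ?_
    intro γ hγ
    rw [Function.mem_support] at hγ
    by_contra h3
    exact hγ (if_neg h3)

include hfin in
/-- unfolding -/
theorem unfold_l {Φ : X → ℂ} (hΦ : ∀ γ ∈ Γ, ∀ x, Φ (γ • x) = Φ x) {h : X → ℂ}
    (hh : (Function.support h).Finite) :
    ip Γ (tr Γ h) Φ = ∑ᶠ x, h x * conj (Φ x) := by
  classical
  unfold ip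
  have h1 : ∀ o : Orb Γ X, tr Γ h (Quotient.out o) * conj (Φ (Quotient.out o)) /
      (sc Γ (Quotient.out o) : ℂ) = ∑ y ∈ hh.toFinset,
      if (Quotient.mk (MulAction.orbitRel Γ X) y) = o then h y * conj (Φ y) else 0 := by
    intro o
    rw [tr_eq Γ hfin hh, Finset.sum_mul, Finset.sum_div]
    refine Finset.sum_congr rfl fun y _ => ?_
    have hs : (sc Γ (Quotient.out o) : ℂ) ≠ 0 := by
      exact_mod_cast (sc_pos Γ hfin _).ne'
    by_cases ho : (Quotient.mk (MulAction.orbitRel Γ X) y) = o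
    · rw [if_pos ho]
      have hrel : (MulAction.orbitRel Γ X).r y (Quotient.out o) := by
        refine Quotient.exact (s := MulAction.orbitRel Γ X) ?_
        rw [Quotient.out_eq, ho]
      obtain ⟨γ, hγ⟩ : ∃ γ : Γ, γ • (Quotient.out o) = y := hrel
      rw [cnt_left Γ ⟨γ, hγ⟩]
      have h2 : Φ (Quotient.out o) = Φ y := by
        rw [← hγ]
        exact (hΦ γ γ.2 _).symm
      rw [h2]
      field_simp
    · rw [if_neg ho, cnt_zero]
      · simp
      · rintro ⟨γ, hγ⟩
        apply ho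
        rw [← Quotient.out_eq o]
        exact Quotient.sound (show (MulAction.orbitRel Γ X).r y (Quotient.out o) from ⟨γ, hγ⟩)
  rw [tsum_congr h1, Summable.tsum_finsetSum]
  · rw [finsum_eq_sum_of_support_subset (s := hh.toFinset)]
    · refine Finset.sum_congr rfl fun y _ => ?_
      rw [tsum_eq_single (Quotient.mk (MulAction.orbitRel Γ X) y)]
      · rw [if_pos rfl]
      · intro o ho
        rw [if_neg (fun h' => ho h'.symm)]
    · intro x hx
      rw [Function.mem_support] at hx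
      simpa using left_ne_zero_of_mul hx
  · intro y _
    refine summable_of_hasFiniteSupport ?_
    refine (Set.finite_singleton (Quotient.mk (MulAction.orbitRel Γ X) y)).subset ?_
    intro o ho
    rw [Function.mem_support] at ho
    by_contra h3
    exact ho (if_neg (fun h' => h3 h'.symm))

theorem ip_symm (F H : X → ℂ) : ip Γ F H = conj (ip Γ H F) := by
  unfold ip
  rw [Complex.conj_tsum]
  refine tsum_congr fun o => ?_
  rw [map_div₀, map_mul, Complex.conj_conj, Complex.conj_natCast, mul_comm]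

include hfin in
theorem unfold_r {Φ : X → ℂ} (hΦ : ∀ γ ∈ Γ, ∀ x, Φ (γ • x) = Φ x) {h : X → ℂ}
    (hh : (Function.support h).Finite) :
    ip Γ Φ (tr Γ h) = conj (∑ᶠ x, h x * conj (Φ x)) := by
  rw [ip_symm, unfold_l Γ hfin hΦ hh]

/-- the function on the chosen points of the orbits -/
def cutf (g : X → ℂ) (x : X) : ℂ := by
  classical
  exact if Quotient.out (Quotient.mk (MulAction.orbitRel Γ X) x) = x then g x / (sc Γ x : ℂ) else 0

theorem cutf_ne {g : X → ℂ} {x : X} (hx : cutf Γ g x ≠ 0) : g x ≠ 0 ∧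
    Quotient.out (Quotient.mk (MulAction.orbitRel Γ X) x) = x := by
  classical
  unfold cutf at hx
  by_cases h : Quotient.out (Quotient.mk (MulAction.orbitRel Γ X) x) = x
  · rw [if_pos h] at hx
    refine ⟨?_, h⟩
    intro h0
    apply hx
    rw [h0, zero_div]
  · rw [if_neg h] at hx
    exact absurd rfl hx

theorem cutf_fin {g : X → ℂ} (hg : {o : Orb Γ X | g (Quotient.out o) ≠ 0}.Finite) :
    (Function.support (cutf Γ g)).Finite := by
  refine (hg.image Quotient.out).subset ?_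
  intro x hx
  obtain ⟨h1, h2⟩ := cutf_ne Γ hx
  refine ⟨Quotient.mk (MulAction.orbitRel Γ X) x, ?_, h2⟩
  show g _ ≠ 0
  rw [h2]
  exact h1

include hfin in
theorem tr_cutf {g : X → ℂ} (hinv : ∀ γ ∈ Γ, ∀ x, g (γ • x) = g x)
    (hg : {o : Orb Γ X | g (Quotient.out o) ≠ 0}.Finite) : tr Γ (cutf Γ g) = g := by
  classical
  funext x
  rw [tr_eq Γ hfin (cutf_fin Γ hg)]
  set r : X := Quotient.out (Quotient.mk (MulAction.orbitRel Γ X) x) with hr
  have hrel : (MulAction.orbitRel Γ X).r r x := Quotient.mk_out (s := MulAction.orbitRel Γ X) x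
  have hrel' := hrel
  obtain ⟨γ₀, hγ₀⟩ : ∃ γ₀ : Γ, γ₀ • x = r := hrel'
  have hrr : Quotient.out (Quotient.mk (MulAction.orbitRel Γ X) r) = r := by
    have : Quotient.mk (MulAction.orbitRel Γ X) r = Quotient.mk (MulAction.orbitRel Γ X) x :=
      Quotient.sound hrel
    rw [this]
  have hgr : g r = g x := by
    rw [← hγ₀]
    exact hinv γ₀ γ₀.2 x
  have hs : (sc Γ r : ℂ) ≠ 0 := by
    exact_mod_cast (sc_pos Γ hfin _).ne'
  rw [Finset.sum_eq_single r]
  · rw [cnt_right Γ ⟨γ₀, hγ₀⟩]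
    unfold cutf
    rw [if_pos hrr, div_mul_cancel₀ _ hs, hgr]
  · intro y hy hyr
    rw [Set.Finite.mem_toFinset] at hy
    obtain ⟨_, h2⟩ := cutf_ne Γ hy
    rw [cnt_zero]
    · simp
    · rintro ⟨γ, hγ⟩
      apply hyr
      rw [← h2, hr]
      congr 1
      exact Quotient.sound (show (MulAction.orbitRel Γ X).r y x from ⟨γ, hγ⟩)
  · intro hr'
    have : cutf Γ g r = 0 := by
      simpa using hr'
    rw [this, zero_mul]

end

section
variable (Γ Δ : Subgroup G)

theorem tr_mem (h : X → ℂ) (x : X) : tr Γ h x = ∑ᶠ γ ∈ (Γ : Set G), h (γ • x) := by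
  unfold tr
  exact finsum_set_coe_eq_finsum_mem (s := (Γ : Set G)) (f := fun γ : G => h (γ • x))

/-- the sums over `Γ` and over `Δ` agree if the supports are separated -/
theorem ip_sep (hΔ : Δ ≤ Γ) (hfin : ∀ x : X, Finite (MulAction.stabilizer Γ x))
    (hfinΔ : ∀ x : X, Finite (MulAction.stabilizer Δ x)) {h₁ h₂ : X → ℂ}
    (hh₂ : (Function.support h₂).Finite)
    (sep : ∀ γ ∈ Γ, ∀ x, h₁ (γ • x) ≠ 0 → h₂ x ≠ 0 → γ ∈ Δ) :
    ip Γ (tr Γ h₁) (tr Γ h₂) = ip Δ (tr Δ h₁) (tr Δ h₂) := by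
  rw [unfold_r Γ hfin (tr_inv Γ h₁) hh₂, unfold_r Δ hfinΔ (tr_inv Δ h₁) hh₂]
  congr 1
  refine finsum_congr fun x => ?_
  by_cases hx : h₂ x = 0
  · rw [hx, zero_mul, zero_mul]
  · congr 2
    rw [tr_mem, tr_mem]
    refine finsum_mem_inter_support_eq' _ _ _ ?_
    intro γ hγ
    rw [Function.mem_support] at hγ
    exact ⟨fun h => sep γ h x hγ hx, fun h => hΔ h⟩

end

end Pool.Agent.Helper61.XE
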